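import Mathlib.Algebra.Algebra.Rat
import Mathlib.Algebra.Order.Archimedean.Real.Basic
import Mathlib.Order.Zorn
import Mathlib.Tactic

set_option autoImplicit false

namespace Pool.Agent.Q81.Archimedean

variable {A : Type*} [CommRing A] [Algebra ℚ A]

/-- A preordering of a `ℚ`-algebra. -/
structure IsPreordering (T : Set A) : Prop where
  add : ∀ a ∈ T, ∀ b ∈ T, a + b ∈ T
  mul : ∀ a ∈ T, ∀ b ∈ T, a * b ∈ T
  sq : ∀ a : A, a ^ 2 ∈ T
  rat : ∀ q : ℚ, 0 ≤ q → algebraMap ℚ A q ∈ T

/-- `T` is archimedean. -/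
def IsArch (T : Set A) : Prop := ∀ a : A, ∃ n : ℕ, (n : A) - a ∈ T

lemma IsPreordering.zero {T : Set A} (hT : IsPreordering T) : (0 : A) ∈ T := by
  have := hT.rat 0 le_rfl
  rwa [map_zero] at this

lemma IsPreordering.one {T : Set A} (hT : IsPreordering T) : (1 : A) ∈ T := by
  have := hT.rat 1 zero_le_one
  rwa [map_one] at this

/-- `T + a T` is a preordering. -/
lemma extend {T : Set A} (hT : IsPreordering T) (a : A) :
    IsPreordering {x : A | ∃ s ∈ T, ∃ t ∈ T, x = s + a * t} where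
  add := by
    rintro _ ⟨s, hs, t, ht, rfl⟩ _ ⟨s', hs', t', ht', rfl⟩
    exact ⟨s + s', hT.add _ hs _ hs', t + t', hT.add _ ht _ ht', by ring⟩
  mul := by
    rintro _ ⟨s, hs, t, ht, rfl⟩ _ ⟨s', hs', t', ht', rfl⟩
    refine ⟨s * s' + a ^ 2 * (t * t'), hT.add _ (hT.mul _ hs _ hs') _
      (hT.mul _ (hT.sq a) _ (hT.mul _ ht _ ht')), s * t' + t * s',
      hT.add _ (hT.mul _ hs _ ht') _ (hT.mul _ ht _ hs'), by ring⟩
  sq := fun b => ⟨b ^ 2, hT.sq b, 0, hT.zero, by ring⟩
  rat := fun q hq => ⟨_, hT.rat q hq, 0, hT.zero, by ring⟩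

/-- A maximal proper preordering is total. -/
lemma exists_total {T : Set A} (hT : IsPreordering T) (h1 : (-1 : A) ∉ T) :
    ∃ P : Set A, IsPreordering P ∧ T ⊆ P ∧ (-1 : A) ∉ P ∧ ∀ a : A, a ∈ P ∨ -a ∈ P := by
  have hz := zorn_subset_nonempty {P : Set A | IsPreordering P ∧ (-1 : A) ∉ P} (by
    intro c hc hchain hne
    refine ⟨⋃₀ c, ⟨⟨?_, ?_, ?_, ?_⟩, ?_⟩, fun s hs => Set.subset_sUnion_of_mem hs⟩
    · rintro a ⟨P, hP, ha⟩ b ⟨Q, hQ, hb⟩
      rcases hchain.total hP hQ with h | h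
      · exact ⟨Q, hQ, (hc hQ).1.add _ (h ha) _ hb⟩
      · exact ⟨P, hP, (hc hP).1.add _ ha _ (h hb)⟩
    · rintro a ⟨P, hP, ha⟩ b ⟨Q, hQ, hb⟩
      rcases hchain.total hP hQ with h | h
      · exact ⟨Q, hQ, (hc hQ).1.mul _ (h ha) _ hb⟩
      · exact ⟨P, hP, (hc hP).1.mul _ ha _ (h hb)⟩
    · intro a
      obtain ⟨P, hP⟩ := hne
      exact ⟨P, hP, (hc hP).1.sq a⟩
    · intro q hq
      obtain ⟨P, hP⟩ := hne
      exact ⟨P, hP, (hc hP).1.rat q hq⟩
    · rintro ⟨P, hP, h⟩
      exact (hc hP).2 h) T ⟨hT, h1⟩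
  obtain ⟨P, hTP, hmax⟩ := hz
  have hP : IsPreordering P := hmax.prop.1
  have hP1 : (-1 : A) ∉ P := hmax.prop.2
  refine ⟨P, hP, hTP, hP1, fun a => ?_⟩
  by_contra hcon
  push Not at hcon
  -- `-1 ∈ P + aP` and `-1 ∈ P - aP`
  have key : ∀ b : A, b ∉ P → ∃ s ∈ P, ∃ t ∈ P, (-1 : A) = s + b * t := by
    intro b hb
    by_contra hne
    have hb' : b ∈ {x : A | ∃ s ∈ P, ∃ t ∈ P, x = s + b * t} :=
      ⟨0, hP.zero, 1, hP.one, by ring⟩
    have hsub : P ⊆ {x : A | ∃ s ∈ P, ∃ t ∈ P, x = s + b * t} :=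
      fun x hx => ⟨x, hx, 0, hP.zero, by ring⟩
    have := hmax.le_of_ge (y := {x : A | ∃ s ∈ P, ∃ t ∈ P, x = s + b * t})
      ⟨extend hP b, hne⟩ hsub
    exact hb (this hb')
  obtain ⟨p1, hp1, p2, hp2, e1⟩ := key a hcon.1
  obtain ⟨q1, hq1, q2, hq2, e2⟩ := key (-a) hcon.2
  apply hP1
  have e3 : (-1 : A) = p1 + q1 + p1 * q1 + a ^ 2 * (p2 * q2) := by
    have e4 : a * p2 = -(1 + p1) := by linear_combination -e1
    have e5 : a * q2 = 1 + q1 := by linear_combination e2
    have e6 : a ^ 2 * (p2 * q2) = (a * p2) * (a * q2) := by ring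
    rw [e6, e4, e5]; ring
  rw [e3]
  exact hP.add _ (hP.add _ (hP.add _ hp1 _ hq1) _ (hP.mul _ hp1 _ hq1)) _
    (hP.mul _ (hP.sq a) _ (hP.mul _ hp2 _ hq2))

section hom

variable {P : Set A} (hP : IsPreordering P) (h1 : (-1 : A) ∉ P) (htot : ∀ a : A, a ∈ P ∨ -a ∈ P)
  (harch : IsArch P)

/-- rationals below `a` -/
def low (P : Set A) (a : A) : Set ℝ := {r : ℝ | ∃ q : ℚ, (q : ℝ) = r ∧ a - algebraMap ℚ A q ∈ P}

include hP h1 in
lemma neg_rat_notMem (q : ℚ) (hq : q < 0) : algebraMap ℚ A q ∉ P := by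
  intro h
  apply h1
  have h2 := hP.mul _ (hP.rat (-1 / q) (by
    rw [div_nonneg_iff]; right; exact ⟨by norm_num, hq.le⟩)) _ h
  rw [← map_mul] at h2
  have h3 : -1 / q * q = -1 := div_mul_cancel₀ _ hq.ne
  rw [h3] at h2
  simpa using h2

include hP h1 in
lemma le_of_mem {a : A} {q r : ℚ} (h2 : a - algebraMap ℚ A q ∈ P)
    (h3 : algebraMap ℚ A r - a ∈ P) : q ≤ r := by
  by_contra h
  push Not at h
  have h4 := hP.add _ h2 _ h3
  have h5 : a - algebraMap ℚ A q + (algebraMap ℚ A r - a) = algebraMap ℚ A (r - q) := by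
    rw [map_sub]; ring
  rw [h5] at h4
  exact neg_rat_notMem hP h1 _ (by linarith) h4

include hP h1 harch in
lemma low_bdd (a : A) : BddAbove (low P a) := by
  obtain ⟨n, hn⟩ := harch a
  refine ⟨n, ?_⟩
  rintro _ ⟨q, rfl, hq⟩
  have h2 : algebraMap ℚ A (n : ℚ) - a ∈ P := by rwa [map_natCast]
  exact_mod_cast le_of_mem hP h1 hq h2

include hP harch in
lemma low_nonempty (a : A) : (low P a).Nonempty := by
  obtain ⟨n, hn⟩ := harch (-a)
  refine ⟨((-n : ℚ) : ℝ), -n, rfl, ?_⟩
  rw [map_neg, map_natCast]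
  convert hn using 1
  ring

/-- the value of `a` -/
noncomputable def val (P : Set A) (a : A) : ℝ := sSup (low P a)

include hP h1 harch in
lemma le_val {a : A} {q : ℚ} (h : a - algebraMap ℚ A q ∈ P) : (q : ℝ) ≤ val P a :=
  le_csSup (low_bdd hP h1 harch a) ⟨q, rfl, h⟩

include hP h1 harch in
lemma val_le {a : A} {q : ℚ} (h : algebraMap ℚ A q - a ∈ P) : val P a ≤ q := by
  apply csSup_le (low_nonempty hP harch a)
  rintro _ ⟨r, rfl, hr⟩
  exact_mod_cast le_of_mem hP h1 hr h

include hP harch in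
lemma mem_of_lt_val {a : A} {q : ℚ} (h : (q : ℝ) < val P a) : a - algebraMap ℚ A q ∈ P := by
  obtain ⟨_, ⟨r, rfl, hr⟩, hlt⟩ := exists_lt_of_lt_csSup (low_nonempty hP harch a) h
  have hlt' : q < r := by exact_mod_cast hlt
  have h2 := hP.add _ hr _ (hP.rat (r - q) (by linarith))
  rw [map_sub] at h2
  convert h2 using 1
  ring

include hP h1 htot harch in
lemma mem_of_val_lt {a : A} {q : ℚ} (h : val P a < q) : algebraMap ℚ A q - a ∈ P := by
  rcases htot (a - algebraMap ℚ A q) with h2 | h2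
  · have := le_val hP h1 harch h2
    linarith
  · rwa [neg_sub] at h2

include hP h1 htot harch in
lemma val_add (a b : A) : val P (a + b) = val P a + val P b := by
  apply le_antisymm
  · apply le_of_forall_pos_le_add
    intro ε hε
    obtain ⟨q, hq1, hq2⟩ := exists_rat_btwn (show val P a < val P a + ε / 2 by linarith)
    obtain ⟨r, hr1, hr2⟩ := exists_rat_btwn (show val P b < val P b + ε / 2 by linarith)
    have h2 := hP.add _ (mem_of_val_lt hP h1 htot harch hq1) _ (mem_of_val_lt hP h1 htot harch hr1)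
    have h3 : val P (a + b) ≤ ((q + r : ℚ) : ℝ) := by
      apply val_le hP h1 harch
      rw [map_add]
      convert h2 using 1
      ring
    push_cast at h3
    linarith
  · apply le_of_forall_pos_le_add
    intro ε hε
    obtain ⟨q, hq1, hq2⟩ := exists_rat_btwn (show val P a - ε / 2 < val P a by linarith)
    obtain ⟨r, hr1, hr2⟩ := exists_rat_btwn (show val P b - ε / 2 < val P b by linarith)
    have h2 := hP.add _ (mem_of_lt_val hP harch hq2) _ (mem_of_lt_val hP harch hr2)
    have h3 : ((q + r : ℚ) : ℝ) ≤ val P (a + b) := by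
      apply le_val hP h1 harch
      rw [map_add]
      convert h2 using 1
      ring
    push_cast at h3
    linarith

include hP h1 harch in
lemma val_rat (q : ℚ) : val P (algebraMap ℚ A q) = q := by
  apply le_antisymm
  · apply val_le hP h1 harch
    rw [sub_self]; exact hP.zero
  · apply le_val hP h1 harch
    rw [sub_self]; exact hP.zero

include hP h1 htot harch in
lemma val_neg (a : A) : val P (-a) = - val P a := by
  have h2 := val_add hP h1 htot harch a (-a)
  rw [add_neg_cancel] at h2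
  have h3 := val_rat hP h1 harch 0
  rw [map_zero] at h3
  rw [h3] at h2
  push_cast at h2
  linarith

include hP h1 htot harch in
lemma val_sq_of_nonneg (a : A) (ha : 0 ≤ val P a) : val P (a ^ 2) = val P a ^ 2 := by
  apply le_antisymm
  · -- upper bound
    by_contra hlt
    push Not at hlt
    have hs : val P a < Real.sqrt (val P (a ^ 2)) := by
      rw [← Real.sqrt_sq ha]
      exact Real.sqrt_lt_sqrt (sq_nonneg _) hlt
    obtain ⟨r, hr1, hr2⟩ := exists_rat_btwn hs
    have h2 := mem_of_val_lt hP h1 htot harch hr1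
    have h3 : a - algebraMap ℚ A (-r) ∈ P := by
      apply mem_of_lt_val hP harch
      push_cast
      linarith
    have h4 := hP.mul _ h2 _ h3
    have h5 : val P (a ^ 2) ≤ ((r ^ 2 : ℚ) : ℝ) := by
      apply val_le hP h1 harch
      rw [map_pow]
      rw [map_neg] at h4
      convert h4 using 1
      ring
    push_cast at h5
    have h6 : Real.sqrt (val P (a ^ 2)) ≤ r := by
      rw [Real.sqrt_le_left (by linarith)]
      exact h5
    linarith
  · -- lower bound
    by_contra hlt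
    push Not at hlt
    have hv : 0 ≤ val P (a ^ 2) := by
      have := le_val hP h1 harch (a := a ^ 2) (q := 0) (by rw [map_zero, sub_zero]; exact hP.sq a)
      simpa using this
    have hs : Real.sqrt (val P (a ^ 2)) < val P a := by
      rw [← Real.sqrt_sq ha]
      exact Real.sqrt_lt_sqrt hv hlt
    obtain ⟨r, hr1, hr2⟩ := exists_rat_btwn hs
    have hr0 : (0 : ℝ) ≤ r := (Real.sqrt_nonneg _).trans hr1.le
    have hr0' : (0 : ℚ) ≤ r := by exact_mod_cast hr0
    have h2 := mem_of_lt_val hP harch hr2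
    have h3 : a + algebraMap ℚ A r ∈ P := by
      have := hP.add _ h2 _ (hP.rat (2 * r) (by linarith))
      rw [map_mul, map_ofNat] at this
      convert this using 1
      ring
    have h4 := hP.mul _ h2 _ h3
    have h5 : ((r ^ 2 : ℚ) : ℝ) ≤ val P (a ^ 2) := by
      apply le_val hP h1 harch
      rw [map_pow]
      convert h4 using 1
      ring
    push_cast at h5
    have h6 : (r : ℝ) ≤ Real.sqrt (val P (a ^ 2)) := Real.le_sqrt_of_sq_le h5
    linarith

include hP h1 htot harch in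
lemma val_sq (a : A) : val P (a ^ 2) = val P a ^ 2 := by
  rcases le_total 0 (val P a) with h | h
  · exact val_sq_of_nonneg hP h1 htot harch a h
  · have h2 : 0 ≤ val P (-a) := by rw [val_neg hP h1 htot harch]; linarith
    have h3 := val_sq_of_nonneg hP h1 htot harch (-a) h2
    rw [neg_sq, val_neg hP h1 htot harch, neg_sq] at h3
    exact h3

include hP h1 htot harch in
lemma val_mul (a b : A) : val P (a * b) = val P a * val P b := by
  have h2 := val_sq hP h1 htot harch (a + b)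
  have h3 : (a + b) ^ 2 = (a ^ 2 + b ^ 2) + (a * b + a * b) := by ring
  rw [h3, val_add hP h1 htot harch, val_add hP h1 htot harch, val_add hP h1 htot harch (a * b),
    val_add hP h1 htot harch a b, val_sq hP h1 htot harch, val_sq hP h1 htot harch] at h2
  linarith

/-- the ring homomorphism -/
noncomputable def valHom : A →+* ℝ where
  toFun := val P
  map_one' := by
    have := val_rat hP h1 harch 1
    rw [map_one] at this
    simpa using this
  map_mul' := val_mul hP h1 htot harch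
  map_zero' := by
    have := val_rat hP h1 harch 0
    rw [map_zero] at this
    simpa using this
  map_add' := val_add hP h1 htot harch

end hom

/-- **Archimedean Positivstellensatz** for preorderings of commutative `ℚ`-algebras. -/
theorem positivstellensatz {T : Set A} (hT : IsPreordering T) (harch : IsArch T) (f : A)
    (hf : ∀ φ : A →+* ℝ, (∀ t ∈ T, 0 ≤ φ t) → 0 < φ f) : f ∈ T := by
  -- `-1 ∈ T - f T`
  have hneg : (-1 : A) ∈ {x : A | ∃ s ∈ T, ∃ t ∈ T, x = s + (-f) * t} := by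
    by_contra hne
    obtain ⟨P, hP, hTP, hP1, htot⟩ := exists_total (extend hT (-f)) hne
    have hTP' : T ⊆ P := fun x hx => hTP ⟨x, hx, 0, hT.zero, by ring⟩
    have hPa : IsArch P := fun a => by
      obtain ⟨n, hn⟩ := harch a
      exact ⟨n, hTP' hn⟩
    have h2 := hf (valHom hP hP1 htot hPa) (fun t ht => by
      have := le_val hP hP1 hPa (a := t) (q := 0) (by rw [map_zero, sub_zero]; exact hTP' ht)
      simpa [valHom] using this)
    have h3 : -f ∈ P := hTP ⟨0, hT.zero, 1, hT.one, by ring⟩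
    have h4 := le_val hP hP1 hPa (a := -f) (q := 0) (by rw [map_zero, sub_zero]; exact h3)
    have h5 : (valHom hP hP1 htot hPa) (-f) = - (valHom hP hP1 htot hPa) f := map_neg _ _
    have h6 : 0 ≤ (valHom hP hP1 htot hPa) (-f) := by simpa [valHom] using h4
    linarith
  obtain ⟨t, ht, s, hs, hts⟩ := hneg
  -- `f s = 1 + t`
  obtain ⟨N0, hN0⟩ := harch s
  obtain ⟨M, hM⟩ := harch (-f)
  set N := N0 + 1 with hN
  have hNs : (N : A) - s ∈ T := by
    have := hT.add _ hN0 _ hT.one
    rw [hN]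
    push_cast
    convert this using 1
    ring
  have hNpos : (0 : ℚ) < N := by rw [hN]; positivity
  -- descent
  have step : ∀ r : ℚ, 0 ≤ r → f + algebraMap ℚ A r ∈ T → f + algebraMap ℚ A (r - 1 / N) ∈ T := by
    intro r hr hfr
    have h2 := hT.add _ (hT.add _ (hT.mul _ hNs _ hfr) _ ht) _ (hT.mul _ hs _ (hT.rat r hr))
    have h3 := hT.mul _ (hT.rat (1 / N) (by positivity)) _ h2
    have h4 : algebraMap ℚ A (1 / N) * (N : A) = 1 := by
      rw [← map_natCast (algebraMap ℚ A) N, ← map_mul, one_div_mul_cancel hNpos.ne', map_one]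
    have h5 : f + algebraMap ℚ A (r - 1 / N) = algebraMap ℚ A (1 / N) *
        (((N : A) - s) * (f + algebraMap ℚ A r) + t + s * algebraMap ℚ A r) := by
      rw [map_sub]
      linear_combination (-f - algebraMap ℚ A r) * h4 + algebraMap ℚ A (1 / N) * hts
    rw [h5]
    exact h3
  have hdesc : ∀ k : ℕ, f + algebraMap ℚ A (max ((M : ℚ) - k / N) 0) ∈ T := by
    intro k
    induction k with
    | zero =>
      have hM0 : (0 : ℚ) ≤ M := Nat.cast_nonneg _
      rw [Nat.cast_zero, zero_div, sub_zero, max_eq_left hM0, map_natCast]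
      convert hM using 1
      ring
    | succ k ih =>
      have h2 := step _ (le_max_right _ _) ih
      -- add back if necessary
      have h3 : max ((M : ℚ) - k / N) 0 - 1 / N ≤ max ((M : ℚ) - (k + 1 : ℕ) / N) 0 := by
        rcases le_total ((M : ℚ) - k / N) 0 with h | h
        · rw [max_eq_right h]
          have : (0 : ℚ) ≤ 1 / N := by positivity
          exact (by linarith : (0 : ℚ) - 1 / N ≤ 0).trans (le_max_right _ _)
        · rw [max_eq_left h]
          refine le_trans (le_of_eq ?_) (le_max_left _ _)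
          push_cast
          ring
      have h4 := hT.add _ h2 _ (hT.rat _ (sub_nonneg.mpr h3))
      rw [map_sub (algebraMap ℚ A) (max ((M : ℚ) - (k + 1 : ℕ) / N) 0)] at h4
      convert h4 using 1
      ring
  have h6 := hdesc (M * N)
  have h7 : max ((M : ℚ) - ((M * N : ℕ) : ℚ) / N) 0 = 0 := by
    rw [Nat.cast_mul, mul_div_assoc, div_self hNpos.ne', mul_one, sub_self, max_self]
  rw [h7, map_zero, add_zero] at h6
  exact h6

/-- Elements bounded in both directions. -/
lemma bounded_mul {T : Set A} (hT : IsPreordering T) {a b : A}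
    (ha : ∃ n : ℕ, (n : A) - a ∈ T ∧ (n : A) + a ∈ T)
    (hb : ∃ n : ℕ, (n : A) - b ∈ T ∧ (n : A) + b ∈ T) :
    ∃ n : ℕ, (n : A) - a * b ∈ T ∧ (n : A) + a * b ∈ T := by
  obtain ⟨n, h1, h2⟩ := ha
  obtain ⟨m, h3, h4⟩ := hb
  have hhalf : algebraMap ℚ A (1 / 2) * 2 = 1 := by
    rw [← map_ofNat (algebraMap ℚ A) 2, ← map_mul]
    norm_num
  refine ⟨n * m, ?_, ?_⟩
  · have h5 := hT.mul _ (hT.rat (1 / 2) (by norm_num)) _
      (hT.add _ (hT.mul _ h2 _ h3) _ (hT.mul _ h1 _ h4))
    have h6 : ((n * m : ℕ) : A) - a * b = algebraMap ℚ A (1 / 2) *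
        (((n : A) + a) * ((m : A) - b) + ((n : A) - a) * ((m : A) + b)) := by
      push_cast
      linear_combination (-(n * m : A) + a * b) * hhalf
    rw [h6]; exact h5
  · have h5 := hT.mul _ (hT.rat (1 / 2) (by norm_num)) _
      (hT.add _ (hT.mul _ h2 _ h4) _ (hT.mul _ h1 _ h3))
    have h6 : ((n * m : ℕ) : A) + a * b = algebraMap ℚ A (1 / 2) *
        (((n : A) + a) * ((m : A) + b) + ((n : A) - a) * ((m : A) - b)) := by
      push_cast
      linear_combination (-(n * m : A) - a * b) * hhalf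
    rw [h6]; exact h5

lemma bounded_add {T : Set A} (hT : IsPreordering T) {a b : A}
    (ha : ∃ n : ℕ, (n : A) - a ∈ T ∧ (n : A) + a ∈ T)
    (hb : ∃ n : ℕ, (n : A) - b ∈ T ∧ (n : A) + b ∈ T) :
    ∃ n : ℕ, (n : A) - (a + b) ∈ T ∧ (n : A) + (a + b) ∈ T := by
  obtain ⟨n, h1, h2⟩ := ha
  obtain ⟨m, h3, h4⟩ := hb
  refine ⟨n + m, ?_, ?_⟩
  · convert hT.add _ h1 _ h3 using 1
    push_cast; ring
  · convert hT.add _ h2 _ h4 using 1
    push_cast; ring

lemma bounded_rat {T : Set A} (hT : IsPreordering T) (q : ℚ) :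
    ∃ n : ℕ, (n : A) - algebraMap ℚ A q ∈ T ∧ (n : A) + algebraMap ℚ A q ∈ T := by
  obtain ⟨n, hn⟩ := exists_nat_ge |q|
  have h1 := (abs_le.mp hn)
  refine ⟨n, ?_, ?_⟩
  · rw [← map_natCast (algebraMap ℚ A), ← map_sub]
    exact hT.rat _ (by linarith [h1.2])
  · rw [← map_natCast (algebraMap ℚ A), ← map_add]
    exact hT.rat _ (by linarith [h1.1])

end Pool.Agent.Q81.Archimedean
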