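import Mathlib
import Pool.Agent.Q81.Archimedean

set_option autoImplicit false

open Polynomial

namespace Pool.Agent.Q81.IntervalCert

open Pool.Agent.Q81.Archimedean

/-- Dividing a polynomial which is nonnegative on an interval by a factor which is nonnegative
there. -/
lemma div_nonneg_on {a b : ℝ} (hab : a < b) {g h : ℚ[X]} (hg0 : g ≠ 0)
    (hg : ∀ t ∈ Set.Icc a b, 0 ≤ aeval t g) (hf : ∀ t ∈ Set.Icc a b, 0 ≤ aeval t (g * h)) :
    ∀ t ∈ Set.Icc a b, 0 ≤ aeval t h := by
  intro t ht
  by_contra hneg
  push Not at hneg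
  have hcont : Continuous fun s : ℝ => aeval s h := h.continuous_aeval
  have hopen : IsOpen {s : ℝ | aeval s h < 0} := isOpen_lt hcont continuous_const
  have hcl : t ∈ closure (Set.Ioo a b) := by rw [closure_Ioo hab.ne]; exact ht
  obtain ⟨s, hs1, hs2⟩ := mem_closure_iff.mp hcl _ hopen hneg
  have hinf : (({s : ℝ | aeval s h < 0} ∩ Set.Ioo a b)).Infinite :=
    infinite_of_mem_nhds s ((hopen.inter isOpen_Ioo).mem_nhds ⟨hs1, hs2⟩)
  have hfin : (g.rootSet ℝ).Finite := g.rootSet_finite ℝ
  obtain ⟨u, ⟨hu1, hu2⟩, hu3⟩ := (hinf.sdiff hfin).nonempty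
  have hu4 : aeval u g ≠ 0 := fun h0 => hu3 ((mem_rootSet).mpr ⟨hg0, h0⟩)
  have huI : u ∈ Set.Icc a b := Set.Ioo_subset_Icc_self hu2
  have h5 := hg u huI
  have h6 := hf u huI
  rw [map_mul] at h6
  have h7 : 0 < aeval u g := lt_of_le_of_ne h5 (Ne.symm hu4)
  have hu1' : aeval u h < 0 := hu1
  nlinarith

/-- **Saturation**: an archimedean preordering `T` of `ℚ[X]` whose nonnegativity set is the
interval `[a,b]` and which contains irreducible polynomials vanishing at `a` and at `b` is
saturated. -/
theorem saturated {T : Set ℚ[X]} (hT : IsPreordering T) (harch : IsArch T) {a b : ℝ} (hab : a < b)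
    (ga gb : ℚ[X]) (hga : ga ∈ T) (hgb : gb ∈ T) (hia : Irreducible ga) (hib : Irreducible gb)
    (hza : aeval a ga = 0) (hzb : aeval b gb = 0)
    (hT0 : ∀ g ∈ T, ∀ t ∈ Set.Icc a b, 0 ≤ aeval t g)
    (hK : ∀ t : ℝ, (∀ g ∈ T, 0 ≤ aeval t g) → t ∈ Set.Icc a b)
    (f : ℚ[X]) (hf : ∀ t ∈ Set.Icc a b, 0 ≤ aeval t f) : f ∈ T := by
  induction hn : f.natDegree using Nat.strong_induction_on generalizing f with
  | _ n ih =>
    by_cases hf0 : f = 0
    · rw [hf0]; exact hT.zero
    by_cases hpos : ∀ t ∈ Set.Icc a b, 0 < aeval t f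
    · -- strictly positive case
      apply positivstellensatz hT harch
      intro φ hφ
      have hφe : φ = (aeval (φ X) : ℚ[X] →ₐ[ℚ] ℝ).toRingHom := by
        apply Polynomial.ringHom_ext
        · intro q
          have h1 : φ.comp C = ((aeval (φ X) : ℚ[X] →ₐ[ℚ] ℝ).toRingHom).comp C :=
            Subsingleton.elim _ _
          exact congrArg (fun ψ : ℚ →+* ℝ => ψ q) h1
        · simp
      have hmem : φ X ∈ Set.Icc a b := by
        apply hK
        intro g hg
        have := hφ g hg
        rw [hφe] at this
        exact this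
      have := hpos _ hmem
      rw [hφe]
      exact this
    · push Not at hpos
      obtain ⟨c, hc, hfc⟩ := hpos
      have hfc0 : aeval c f = 0 := le_antisymm hfc (hf c hc)
      -- dividing by an element of `T`
      have key : ∀ g ∈ T, ∀ h : ℚ[X], f = g * h → 0 < g.natDegree → f ∈ T := by
        intro g hg h hfg hdeg
        have hg0 : g ≠ 0 := by rintro rfl; simp at hdeg
        have hh0 : h ≠ 0 := by rintro rfl; exact hf0 (by rw [hfg, mul_zero])
        have h1 : ∀ t ∈ Set.Icc a b, 0 ≤ aeval t h := by
          apply div_nonneg_on hab hg0 (hT0 g hg)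
          rw [← hfg]
          exact hf
        have h2 : h ∈ T := by
          apply ih h.natDegree _ h h1 rfl
          rw [← hn, hfg, natDegree_mul hg0 hh0]
          omega
        rw [hfg]
        exact hT.mul _ hg _ h2
      -- a factorization through an irreducible polynomial vanishing at `c`
      have hdvd : ∀ g : ℚ[X], Irreducible g → aeval c g = 0 → ∀ p : ℚ[X], aeval c p = 0 → g ∣ p := by
        intro g hg hgc p hpc
        have hint : IsIntegral ℚ c := ⟨f * C (f.leadingCoeff)⁻¹,
          monic_mul_leadingCoeff_inv hf0, by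
            rw [← aeval_def, map_mul, hfc0, zero_mul]⟩
        have hm := minpoly.irreducible hint
        have h1 : minpoly ℚ c ∣ g := minpoly.dvd ℚ c hgc
        have h2 : minpoly ℚ c ∣ p := minpoly.dvd ℚ c hpc
        have h3 : Associated (minpoly ℚ c) g := hm.associated_of_dvd hg h1
        exact h3.symm.dvd.trans h2
      have hdegpos : ∀ g : ℚ[X], Irreducible g → 0 < g.natDegree := by
        intro g hg
        exact hg.natDegree_pos
      rcases eq_or_lt_of_le hc.1 with h1 | h1
      · -- left end point
        rw [← h1] at hfc0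
        subst h1
        obtain ⟨h, hh⟩ := hdvd ga hia hza f hfc0
        exact key ga hga h hh (hdegpos ga hia)
      rcases eq_or_lt_of_le hc.2 with h2 | h2
      · subst h2
        obtain ⟨h, hh⟩ := hdvd gb hib hzb f hfc0
        exact key gb hgb h hh (hdegpos gb hib)
      · -- interior zero
        have hint : IsIntegral ℚ c := ⟨f * C (f.leadingCoeff)⁻¹,
          monic_mul_leadingCoeff_inv hf0, by
            rw [← aeval_def, map_mul, hfc0, zero_mul]⟩
        have hm := minpoly.irreducible hint
        have hmc : aeval c (minpoly ℚ c) = 0 := minpoly.aeval ℚ c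
        obtain ⟨h, hh⟩ := hdvd _ hm hmc f hfc0
        have hmin : IsLocalMin (fun s : ℝ => aeval s f) c := by
          filter_upwards [Ioo_mem_nhds h1 h2] with s hs
          rw [hfc0]
          exact hf s (Set.Ioo_subset_Icc_self hs)
        have hder : aeval c (derivative f) = 0 := by
          have h3 := hmin.deriv_eq_zero
          rwa [Polynomial.deriv_aeval] at h3
        have hsep : (minpoly ℚ c).Separable := hm.separable
        have hne : aeval c (derivative (minpoly ℚ c)) ≠ 0 := hsep.aeval_derivative_ne_zero hmc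
        have hhc : aeval c h = 0 := by
          rw [hh, derivative_mul, map_add, map_mul, map_mul, hmc, zero_mul, add_zero] at hder
          rcases mul_eq_zero.mp hder with h4 | h4
          · exact absurd h4 hne
          · exact h4
        obtain ⟨k, hk⟩ := hdvd _ hm hmc h hhc
        refine key (minpoly ℚ c ^ 2) (hT.sq _) k ?_ ?_
        · rw [hh, hk]
          generalize minpoly ℚ c = m
          ring
        · rw [natDegree_pow]
          have := hdegpos _ hm
          omega

end Pool.Agent.Q81.IntervalCert
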