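import Pool.Agent.Q81.SumSq

set_option autoImplicit false

open MvPolynomial

namespace Pool.Agent.Q81.Motzkin

open Pool.Agent.Q81.SumSq

/-- The Motzkin form as a function. -/
def mot (a b c : ℝ) : ℝ := a ^ 4 * b ^ 2 + a ^ 2 * b ^ 4 - 3 * (a ^ 2 * b ^ 2 * c ^ 2) + c ^ 6

lemma mot_identity (a b c : ℝ) : (a ^ 2 + b ^ 2 + c ^ 2) * mot a b c =
    (a ^ 2 * b * c - b * c ^ 3) ^ 2 + (a * b ^ 2 * c - a * c ^ 3) ^ 2 + (a ^ 2 * b ^ 2 - c ^ 4) ^ 2 +
      1 / 4 * (a * b ^ 3 - a ^ 3 * b) ^ 2 + 3 / 4 * (a * b ^ 3 + a ^ 3 * b - 2 * a * b * c ^ 2) ^ 2 := by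
  simp only [mot]
  ring

lemma mot_nonneg (a b c : ℝ) : 0 ≤ mot a b c := by
  by_cases h : a ^ 2 + b ^ 2 + c ^ 2 = 0
  · have ha : a = 0 := by nlinarith [sq_nonneg a, sq_nonneg b, sq_nonneg c]
    have hb : b = 0 := by nlinarith [sq_nonneg a, sq_nonneg b, sq_nonneg c]
    have hc : c = 0 := by nlinarith [sq_nonneg a, sq_nonneg b, sq_nonneg c]
    simp [mot, ha, hb, hc]
  · have h1 : 0 < a ^ 2 + b ^ 2 + c ^ 2 := lt_of_le_of_ne (by positivity) (Ne.symm h)
    have h2 : 0 ≤ (a ^ 2 + b ^ 2 + c ^ 2) * mot a b c := by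
      rw [mot_identity]
      positivity
    exact nonneg_of_mul_nonneg_right h2 h1

/-- The Motzkin form as a polynomial. -/
noncomputable def motPoly : MvPolynomial (Fin 3) ℝ :=
  X 0 ^ 4 * X 1 ^ 2 + X 0 ^ 2 * X 1 ^ 4 - C 3 * (X 0 ^ 2 * X 1 ^ 2 * X 2 ^ 2) + X 2 ^ 6

lemma motPoly_eval (x : Fin 3 → ℝ) : eval x motPoly = mot (x 0) (x 1) (x 2) := by
  simp [motPoly, mot]

lemma motPoly_homogeneous : motPoly.IsHomogeneous (2 * 3) := by
  have h0 := isHomogeneous_X ℝ (0 : Fin 3)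
  have h1 := isHomogeneous_X ℝ (1 : Fin 3)
  have h2 := isHomogeneous_X ℝ (2 : Fin 3)
  have h3 := (isHomogeneous_C (Fin 3) (3 : ℝ)).mul (((h0.pow 2).mul (h1.pow 2)).mul (h2.pow 2))
  rw [zero_add] at h3
  exact (((h0.pow 4).mul (h1.pow 2)).add ((h0.pow 2).mul (h1.pow 4))).sub h3 |>.add (h2.pow 6)

/-- The Motzkin form is not a sum of squares of polynomials. -/
theorem mot_not_sos (r : ℕ) (h : Fin r → MvPolynomial (Fin 3) ℝ)
    (hs : ∀ x : Fin 3 → ℝ, mot (x 0) (x 1) (x 2) = ∑ i, (eval x (h i)) ^ 2) : False := by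
  have hs1 : motPoly = ∑ i, h i ^ 2 := by
    apply MvPolynomial.funext
    intro x
    rw [motPoly_eval, hs, map_sum]
    simp only [map_pow]
  have hs2 := sum_sq_homogeneousComponent Finset.univ h motPoly 3 motPoly_homogeneous hs1
  have hcub := fun i => eval_form_three _ (homogeneousComponent_isHomogeneous 3 (h i))
  choose b1 b2 b3 b4 b5 b6 b7 b8 b9 b10 hb using hcub
  have key : ∀ x y z : ℝ, mot x y z = ∑ i, (b1 i * x ^ 3 + b2 i * (x ^ 2 * y) + b3 i * (x * y ^ 2) +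
      b4 i * y ^ 3 + b5 i * (x ^ 2 * z) + b6 i * (x * y * z) + b7 i * (y ^ 2 * z) +
      b8 i * (x * z ^ 2) + b9 i * (y * z ^ 2) + b10 i * z ^ 3) ^ 2 := by
    intro x y z
    have h1 := congrArg (eval ![x, y, z]) hs2
    rw [motPoly_eval, map_sum] at h1
    simp only [map_pow, hb] at h1
    simpa using h1
  have hline1 : ∀ i, b1 i = 0 ∧ b5 i = 0 ∧ b8 i = 0 := by
    intro i
    have h1 : ∑ i, (Polynomial.C (b1 i) + Polynomial.C (b5 i) * Polynomial.X +
        Polynomial.C (b8 i) * Polynomial.X ^ 2 + Polynomial.C (b10 i) * Polynomial.X ^ 3) ^ 2 =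
        (Polynomial.X : Polynomial ℝ) ^ 6 := by
      apply Polynomial.funext
      intro z
      have h2 := key 1 0 z
      rw [Polynomial.eval_finsetSum]
      simp only [Polynomial.eval_pow, Polynomial.eval_add, Polynomial.eval_mul, Polynomial.eval_C,
        Polynomial.eval_X]
      rw [show z ^ 6 = mot 1 0 z by simp only [mot]; ring, h2]
      refine Finset.sum_congr rfl (fun i _ => ?_)
      ring
    have h3 := X_pow_dvd_of_sum_sq Finset.univ 3 _ (by rw [h1]) i (Finset.mem_univ i)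
    rw [Polynomial.X_pow_dvd_iff] at h3
    refine ⟨?_, ?_, ?_⟩
    · simpa [Polynomial.coeff_X, Polynomial.coeff_C] using h3 0 (by norm_num)
    · simpa [Polynomial.coeff_X, Polynomial.coeff_C] using h3 1 (by norm_num)
    · simpa [Polynomial.coeff_X, Polynomial.coeff_C] using h3 2 (by norm_num)
  have hline2 : ∀ i, b4 i = 0 ∧ b7 i = 0 ∧ b9 i = 0 := by
    intro i
    have h1 : ∑ i, (Polynomial.C (b4 i) + Polynomial.C (b7 i) * Polynomial.X +
        Polynomial.C (b9 i) * Polynomial.X ^ 2 + Polynomial.C (b10 i) * Polynomial.X ^ 3) ^ 2 =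
        (Polynomial.X : Polynomial ℝ) ^ 6 := by
      apply Polynomial.funext
      intro z
      have h2 := key 0 1 z
      rw [Polynomial.eval_finsetSum]
      simp only [Polynomial.eval_pow, Polynomial.eval_add, Polynomial.eval_mul, Polynomial.eval_C,
        Polynomial.eval_X]
      rw [show z ^ 6 = mot 0 1 z by simp only [mot]; ring, h2]
      refine Finset.sum_congr rfl (fun i _ => ?_)
      ring
    have h3 := X_pow_dvd_of_sum_sq Finset.univ 3 _ (by rw [h1]) i (Finset.mem_univ i)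
    rw [Polynomial.X_pow_dvd_iff] at h3
    refine ⟨?_, ?_, ?_⟩
    · simpa [Polynomial.coeff_X, Polynomial.coeff_C] using h3 0 (by norm_num)
    · simpa [Polynomial.coeff_X, Polynomial.coeff_C] using h3 1 (by norm_num)
    · simpa [Polynomial.coeff_X, Polynomial.coeff_C] using h3 2 (by norm_num)
  -- vanishing at the four points `(±1, ±1, 1)`
  have hvan : ∀ σ τ : ℝ, mot σ τ 1 = 0 → ∀ i, b1 i * σ ^ 3 + b2 i * (σ ^ 2 * τ) + b3 i * (σ * τ ^ 2) +
      b4 i * τ ^ 3 + b5 i * (σ ^ 2 * 1) + b6 i * (σ * τ * 1) + b7 i * (τ ^ 2 * 1) +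
      b8 i * (σ * 1 ^ 2) + b9 i * (τ * 1 ^ 2) + b10 i * 1 ^ 3 = 0 := by
    intro σ τ h0 i
    have h1 := key σ τ 1
    rw [h0] at h1
    have := (Finset.sum_eq_zero_iff_of_nonneg (fun i _ => sq_nonneg _)).mp h1.symm i
      (Finset.mem_univ i)
    exact pow_eq_zero_iff (by norm_num) |>.mp this
  have hall : ∀ i, b10 i = 0 := by
    intro i
    have v3 := hvan 1 1 (by norm_num [mot]) i
    have v4 := hvan 1 (-1) (by norm_num [mot]) i
    have v5 := hvan (-1) 1 (by norm_num [mot]) i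
    have v6 := hvan (-1) (-1) (by norm_num [mot]) i
    obtain ⟨z1, z5, z8⟩ := hline1 i
    obtain ⟨z4, z7, z9⟩ := hline2 i
    rw [z1, z5, z8, z4, z7, z9] at v3 v4 v5 v6
    norm_num at v3 v4 v5 v6
    linarith
  have hfin := key 0 0 1
  rw [Finset.sum_eq_zero (fun i _ => by rw [hall i]; norm_num)] at hfin
  norm_num [mot] at hfin

end Pool.Agent.Q81.Motzkin
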