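import Mathlib
import Pool.Agent.Q81.IntervalCert

set_option autoImplicit false

open Polynomial

namespace Pool.Agent.Q81.QPreorder

open Pool.Agent.Q81.Archimedean

/-- `Σ`: the set of finite sums `∑_j a_j h_j^2` with `a_j ∈ ℚ_{≥ 0}` and `h_j ∈ ℚ[x]`. -/
def Sig : Set ℚ[X] :=
  {σ | ∃ (n : ℕ) (a : Fin n → ℚ) (h : Fin n → ℚ[X]),
    (∀ j, 0 ≤ a j) ∧ σ = ∑ j, C (a j) * h j ^ 2}

/-- The preordering generated by the finite set `S`. -/
def TS (S : Finset ℚ[X]) : Set ℚ[X] :=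
  {f | ∃ σ : Finset ℚ[X] → ℚ[X], (∀ e, σ e ∈ Sig) ∧ f = ∑ e ∈ S.powerset, σ e * ∏ g ∈ e, g}

/-- `K_S = {t ∈ ℝ : g(t) ≥ 0 for all g ∈ S}`. -/
def KS (S : Finset ℚ[X]) : Set ℝ := {t | ∀ g ∈ S, 0 ≤ aeval t g}

/-- `Pos(K) = {f ∈ ℚ[x] : f(t) ≥ 0 for all t ∈ K}`. -/
def Pos (K : Set ℝ) : Set ℚ[X] := {f | ∀ t ∈ K, 0 ≤ aeval t f}

lemma sig_add {σ τ : ℚ[X]} (h1 : σ ∈ Sig) (h2 : τ ∈ Sig) : σ + τ ∈ Sig := by
  obtain ⟨n, a, h, ha, rfl⟩ := h1
  obtain ⟨m, b, k, hb, rfl⟩ := h2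
  refine ⟨n + m, Fin.append a b, Fin.append h k, ?_, ?_⟩
  · intro j
    refine Fin.addCases (fun i => ?_) (fun i => ?_) j
    · rw [Fin.append_left]; exact ha i
    · rw [Fin.append_right]; exact hb i
  · rw [Fin.sum_univ_add]
    simp only [Fin.append_left, Fin.append_right]

lemma sig_zero : (0 : ℚ[X]) ∈ Sig := ⟨0, Fin.elim0, Fin.elim0, fun j => j.elim0, by simp⟩

lemma sig_single (q : ℚ) (hq : 0 ≤ q) (h : ℚ[X]) : C q * h ^ 2 ∈ Sig :=
  ⟨1, fun _ => q, fun _ => h, fun _ => hq, by simp⟩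

lemma sig_sum {ι : Type*} (s : Finset ι) (f : ι → ℚ[X]) (hf : ∀ i ∈ s, f i ∈ Sig) :
    ∑ i ∈ s, f i ∈ Sig := by
  classical
  induction s using Finset.induction_on with
  | empty => rw [Finset.sum_empty]; exact sig_zero
  | insert i s hi ih =>
    rw [Finset.sum_insert hi]
    exact sig_add (hf i (Finset.mem_insert_self i s))
      (ih fun j hj => hf j (Finset.mem_insert_of_mem hj))

lemma sig_mul {σ τ : ℚ[X]} (h1 : σ ∈ Sig) (h2 : τ ∈ Sig) : σ * τ ∈ Sig := by
  obtain ⟨n, a, h, ha, rfl⟩ := h1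
  obtain ⟨m, b, k, hb, rfl⟩ := h2
  rw [Finset.sum_mul]
  apply sig_sum
  intro i _
  rw [Finset.mul_sum]
  apply sig_sum
  intro j _
  have : C (a i) * h i ^ 2 * (C (b j) * k j ^ 2) = C (a i * b j) * (h i * k j) ^ 2 := by
    rw [C_mul]; ring
  rw [this]
  exact sig_single _ (mul_nonneg (ha i) (hb j)) _

lemma TS_zero (S : Finset ℚ[X]) : (0 : ℚ[X]) ∈ TS S :=
  ⟨fun _ => 0, fun _ => sig_zero, by simp⟩

lemma TS_add (S : Finset ℚ[X]) {f g : ℚ[X]} (hf : f ∈ TS S) (hg : g ∈ TS S) : f + g ∈ TS S := by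
  obtain ⟨σ, hσ, rfl⟩ := hf
  obtain ⟨τ, hτ, rfl⟩ := hg
  refine ⟨fun e => σ e + τ e, fun e => sig_add (hσ e) (hτ e), ?_⟩
  rw [← Finset.sum_add_distrib]
  exact Finset.sum_congr rfl fun e _ => by ring

lemma TS_sum (S : Finset ℚ[X]) {ι : Type*} (s : Finset ι) (f : ι → ℚ[X])
    (hf : ∀ i ∈ s, f i ∈ TS S) : ∑ i ∈ s, f i ∈ TS S := by
  classical
  induction s using Finset.induction_on with
  | empty => rw [Finset.sum_empty]; exact TS_zero S
  | insert i s hi ih =>
    rw [Finset.sum_insert hi]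
    exact TS_add S (hf i (Finset.mem_insert_self i s))
      (ih fun j hj => hf j (Finset.mem_insert_of_mem hj))

lemma TS_single (S : Finset ℚ[X]) {σ : ℚ[X]} (hσ : σ ∈ Sig) {e : Finset ℚ[X]} (he : e ⊆ S) :
    σ * ∏ g ∈ e, g ∈ TS S := by
  classical
  refine ⟨fun e' => if e' = e then σ else 0, fun e' => ?_, ?_⟩
  · dsimp only
    split_ifs
    · exact hσ
    · exact sig_zero
  · dsimp only
    rw [Finset.sum_eq_single e]
    · rw [if_pos rfl]
    · intro e' _ hne
      rw [if_neg hne, zero_mul]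
    · intro h
      exact absurd (Finset.mem_powerset.mpr he) h

/-- `T_S` is a preordering. -/
lemma TS_preordering (S : Finset ℚ[X]) : IsPreordering (TS S) where
  add := fun a ha b hb => TS_add S ha hb
  mul := by
    classical
    rintro _ ⟨σ, hσ, rfl⟩ _ ⟨τ, hτ, rfl⟩
    rw [Finset.sum_mul]
    apply TS_sum
    intro e he
    rw [Finset.mul_sum]
    apply TS_sum
    intro e' he'
    rw [Finset.mem_powerset] at he he'
    have h1 : ∏ g ∈ e, g = (∏ g ∈ e \ e', g) * ∏ g ∈ e ∩ e', g := by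
      rw [mul_comm]
      exact (Finset.prod_inter_mul_prod_sdiff e e' _).symm
    have h2 : ∏ g ∈ e', g = (∏ g ∈ e' \ e, g) * ∏ g ∈ e ∩ e', g := by
      rw [mul_comm, Finset.inter_comm]
      exact (Finset.prod_inter_mul_prod_sdiff e' e _).symm
    have h3 : Disjoint (e \ e') (e' \ e) := disjoint_sdiff_sdiff
    have h4 : σ e * (∏ g ∈ e, g) * (τ e' * ∏ g ∈ e', g) =
        (σ e * τ e' * (C 1 * (∏ g ∈ e ∩ e', g) ^ 2)) * ∏ g ∈ (e \ e') ∪ (e' \ e), g := by
      rw [Finset.prod_union h3, h1, h2, C_1]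
      ring
    rw [h4]
    apply TS_single
    · exact sig_mul (sig_mul (hσ e) (hτ e')) (sig_single 1 zero_le_one _)
    · exact Finset.union_subset (Finset.sdiff_subset.trans he) (Finset.sdiff_subset.trans he')
  sq := fun a => by
    have h1 := TS_single S (sig_single 1 zero_le_one a) (Finset.empty_subset S)
    simpa using h1
  rat := fun q hq => by
    have h1 := TS_single S (sig_single q hq 1) (Finset.empty_subset S)
    simpa using h1

lemma TS_mem (S : Finset ℚ[X]) {g : ℚ[X]} (hg : g ∈ S) : g ∈ TS S := by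
  have h1 := TS_single S (sig_single 1 zero_le_one 1) (Finset.singleton_subset_iff.mpr hg)
  simpa using h1

lemma sig_nonneg {σ : ℚ[X]} (hσ : σ ∈ Sig) (t : ℝ) : 0 ≤ aeval t σ := by
  obtain ⟨n, a, h, ha, rfl⟩ := hσ
  rw [map_sum]
  apply Finset.sum_nonneg
  intro j _
  rw [map_mul, map_pow, aeval_C]
  exact mul_nonneg (by simpa using ha j) (sq_nonneg _)

/-- `T_S ⊆ Pos(K_S)`. -/
lemma TS_nonneg (S : Finset ℚ[X]) {f : ℚ[X]} (hf : f ∈ TS S) {t : ℝ} (ht : t ∈ KS S) :
    0 ≤ aeval t f := by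
  obtain ⟨σ, hσ, rfl⟩ := hf
  rw [map_sum]
  apply Finset.sum_nonneg
  intro e he
  rw [map_mul, map_prod]
  apply mul_nonneg (sig_nonneg (hσ e) t)
  apply Finset.prod_nonneg
  intro g hg
  exact ht g (Finset.mem_powerset.mp he hg)

/-- If `n - X` and `n + X` are in `T` then `T` is archimedean. -/
lemma arch_of_X {T : Set ℚ[X]} (hT : IsPreordering T)
    (h : ∃ n : ℕ, (n : ℚ[X]) - X ∈ T ∧ (n : ℚ[X]) + X ∈ T) : IsArch T := by
  have h1 : ∀ p : ℚ[X], ∃ n : ℕ, (n : ℚ[X]) - p ∈ T ∧ (n : ℚ[X]) + p ∈ T := by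
    intro p
    induction p using Polynomial.induction_on' with
    | add p q hp hq => exact bounded_add hT hp hq
    | monomial n a =>
      rw [← C_mul_X_pow_eq_monomial]
      apply bounded_mul hT
      · exact bounded_rat hT a
      · induction n with
        | zero =>
          rw [pow_zero]
          have := bounded_rat hT 1
          rwa [map_one] at this
        | succ n ih =>
          rw [pow_succ]
          exact bounded_mul hT ih h
  intro p
  obtain ⟨n, hn, _⟩ := h1 p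
  exact ⟨n, hn⟩

/-- **Main criterion**: if `K_S = [a,b]`, `T_S` contains `n ± X` and the end points are zeros of
irreducible elements of `S`, then `Pos([a,b]) = T_S`. -/
theorem pos_eq (S : Finset ℚ[X]) {a b : ℝ} (hab : a < b) (hKS : KS S = Set.Icc a b)
    (hX : ∃ n : ℕ, (n : ℚ[X]) - X ∈ TS S ∧ (n : ℚ[X]) + X ∈ TS S)
    (ga gb : ℚ[X]) (hga : ga ∈ S) (hgb : gb ∈ S) (hia : Irreducible ga) (hib : Irreducible gb)
    (hza : aeval a ga = 0) (hzb : aeval b gb = 0) : Pos (Set.Icc a b) = TS S := by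
  apply Set.Subset.antisymm
  · intro f hf
    apply IntervalCert.saturated (TS_preordering S) (arch_of_X (TS_preordering S) hX) hab ga gb
      (TS_mem S hga) (TS_mem S hgb) hia hib hza hzb
    · intro g hg t ht
      exact TS_nonneg S hg (by rw [hKS]; exact ht)
    · intro t ht
      rw [← hKS]
      intro g hg
      exact ht g (TS_mem S hg)
    · exact hf
  · intro f hf t ht
    exact TS_nonneg S hf (by rw [hKS]; exact ht)

/-- Eisenstein: `X^n - p` is irreducible over `ℚ`. -/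
lemma irreducible_X_pow_sub {n : ℕ} (hn : n ≠ 0) {p : ℕ} (hp : p.Prime) :
    Irreducible (X ^ n - C (p : ℚ) : ℚ[X]) := by
  have hmonic : (X ^ n - C (p : ℤ) : ℤ[X]).Monic := monic_X_pow_sub_C _ hn
  have hdeg : (X ^ n - C (p : ℤ) : ℤ[X]).natDegree = n := natDegree_X_pow_sub_C
  have hpI : Prime (p : ℤ) := Nat.prime_iff_prime_int.mp hp
  have hE : (X ^ n - C (p : ℤ) : ℤ[X]).IsEisensteinAt (Ideal.span {(p : ℤ)}) := by
    refine ⟨?_, ?_, ?_⟩
    · rw [hmonic.leadingCoeff]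
      intro h
      rw [Ideal.mem_span_singleton] at h
      exact hpI.not_isUnit (isUnit_of_dvd_one h)
    · intro i hi
      rw [hdeg] at hi
      rw [coeff_sub, coeff_X_pow, if_neg hi.ne, coeff_C, Ideal.mem_span_singleton]
      split_ifs
      · simp
      · simp
    · rw [coeff_sub, coeff_X_pow, if_neg (Ne.symm hn), coeff_C_zero, Ideal.span_singleton_pow,
        Ideal.mem_span_singleton, zero_sub, dvd_neg]
      intro h
      obtain ⟨c, hc⟩ := h
      have h1 : (p : ℤ) * 1 = p * (p * c) := by rw [mul_one]; linear_combination hc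
      have h2 := mul_left_cancel₀ hpI.ne_zero h1
      exact hpI.not_isUnit (isUnit_of_dvd_one ⟨c, h2⟩)
  have hirr : Irreducible (X ^ n - C (p : ℤ) : ℤ[X]) := by
    apply hE.irreducible
    · rw [Ideal.span_singleton_prime hpI.ne_zero]; exact hpI
    · exact hmonic.isPrimitive
    · rw [hdeg]; omega
  rw [hmonic.irreducible_iff_irreducible_map_fraction_map (K := ℚ)] at hirr
  simpa using hirr

end Pool.Agent.Q81.QPreorder
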