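import Mathlib.Analysis.Matrix.Order
import Mathlib.Combinatorics.Nullstellensatz
import Mathlib.Topology.Sequences
import Mathlib.Algebra.MvPolynomial.Funext
import Mathlib.RingTheory.MvPolynomial.Basic
import Mathlib.Tactic

set_option autoImplicit false

open MvPolynomial Filter Topology

namespace Pool.Agent.Q81.SosClosed

/-- the monomial function with exponent vector `d` -/
def mono {n D : ℕ} (d : Fin n → Fin (D + 1)) (x : Fin n → ℝ) : ℝ := ∏ i, x i ^ (d i : ℕ)

/-- the exponent vector as a finsupp -/
noncomputable def expo {n D : ℕ} (d : Fin n → Fin (D + 1)) : Fin n →₀ ℕ :=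
  Finsupp.equivFunOnFinite.symm (fun i => (d i : ℕ))

lemma expo_injective {n D : ℕ} : Function.Injective (expo : (Fin n → Fin (D + 1)) → Fin n →₀ ℕ) := by
  intro a b hab
  have := Finsupp.equivFunOnFinite.symm.injective hab
  funext i
  exact Fin.ext (congrFun this i)

/-- Expansion of a polynomial of total degree at most `D`. -/
lemma eval_eq_sum {n D : ℕ} (h : MvPolynomial (Fin n) ℝ) (hD : h.totalDegree ≤ D) (x : Fin n → ℝ) :
    eval x h = ∑ d : Fin n → Fin (D + 1), coeff (expo d) h * mono d x := by
  classical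
  rw [eval_eq']
  have h1 : ∑ d : Fin n → Fin (D + 1), coeff (expo d) h * mono d x =
      ∑ e ∈ Finset.univ.image (expo : (Fin n → Fin (D + 1)) → Fin n →₀ ℕ),
        coeff e h * ∏ i, x i ^ e i := by
    rw [Finset.sum_image (fun a _ b _ hab => expo_injective hab)]
    rfl
  rw [h1]
  apply Finset.sum_subset
  · intro e he
    rw [Finset.mem_image]
    refine ⟨fun i => ⟨e i, ?_⟩, Finset.mem_univ _, ?_⟩
    · have h2 : e i ≤ h.totalDegree :=
        (Finsupp.le_degree i e).trans (le_totalDegree he)
      omega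
    · ext i
      rfl
  · intro e _ he
    rw [notMem_support_iff.mp he, zero_mul]

/-- a polynomial with given coefficients -/
noncomputable def poly {n D : ℕ} (c : (Fin n → Fin (D + 1)) → ℝ) : MvPolynomial (Fin n) ℝ :=
  ∑ d, monomial (expo d) (c d)

lemma eval_poly {n D : ℕ} (c : (Fin n → Fin (D + 1)) → ℝ) (x : Fin n → ℝ) :
    eval x (poly c) = ∑ d, c d * mono d x := by
  rw [poly, map_sum]
  refine Finset.sum_congr rfl (fun d _ => ?_)
  rw [eval_monomial, Finsupp.prod_fintype _ _ (by simp)]
  rfl

/-- the grid point with index `p` -/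
def grid {n D : ℕ} (p : Fin n → Fin (D + 1)) : Fin n → ℝ := fun i => ((p i : ℕ) : ℝ)

/-- the evaluation matrix of monomials at grid points is injective -/
lemma grid_injective {n D : ℕ} (c : (Fin n → Fin (D + 1)) → ℝ)
    (h : ∀ p : Fin n → Fin (D + 1), ∑ d, c d * mono d (grid p) = 0) : c = 0 := by
  classical
  have hz : poly c = 0 := by
    apply eq_zero_of_eval_zero_at_prod_finset (poly c)
      (fun _ => Finset.univ.image (fun k : Fin (D + 1) => ((k : ℕ) : ℝ)))
    · intro i
      rw [Finset.card_image_of_injective _ (fun a b hab => Fin.ext (by exact_mod_cast hab)),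
        Finset.card_univ, Fintype.card_fin]
      refine lt_of_le_of_lt (b := D) ?_ (Nat.lt_succ_self D)
      rw [degreeOf_le_iff]
      intro m hm
      rw [poly] at hm
      obtain ⟨d, -, hd⟩ := Finset.mem_biUnion.mp (support_sum hm)
      have := Finset.mem_singleton.mp (support_monomial_subset hd)
      rw [this]
      exact Nat.lt_succ_iff.mp (d i).2
    · intro x hx
      simp only [Finset.mem_image, Finset.mem_univ, true_and] at hx
      choose p hp using hx
      have hxp : x = grid p := by
        funext i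
        exact (hp i).symm
      rw [hxp, eval_poly]
      exact h p
  funext d
  have h1 : coeff (expo d) (poly c) = c d := by
    rw [poly, coeff_sum, Finset.sum_eq_single d]
    · rw [coeff_monomial, if_pos rfl]
    · intro b _ hb
      rw [coeff_monomial, if_neg (fun hh => hb (expo_injective hh))]
    · intro hh
      exact absurd (Finset.mem_univ d) hh
  rw [← h1, hz, coeff_zero]
  rfl

/-- There is a linear formula recovering the coefficients from the values on the grid. -/
lemma exists_recover (n D : ℕ) : ∃ W : (Fin n → Fin (D + 1)) → (Fin n → Fin (D + 1)) → ℝ,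
    ∀ c : (Fin n → Fin (D + 1)) → ℝ, ∀ a, c a = ∑ p, W a p * ∑ d, c d * mono d (grid p) := by
  classical
  let L : ((Fin n → Fin (D + 1)) → ℝ) →ₗ[ℝ] ((Fin n → Fin (D + 1)) → ℝ) :=
    { toFun := fun c p => ∑ d, c d * mono d (grid p)
      map_add' := by
        intro a b
        funext p
        simp only [Pi.add_apply, add_mul, Finset.sum_add_distrib]
      map_smul' := by
        intro r a
        funext p
        simp only [Pi.smul_apply, smul_eq_mul, RingHom.id_apply, Finset.mul_sum, mul_assoc] }
  have hL : LinearMap.ker L = ⊥ := by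
    rw [LinearMap.ker_eq_bot']
    intro c hc
    exact grid_injective c (fun p => congrFun hc p)
  obtain ⟨M, hM⟩ := L.exists_leftInverse_of_injective hL
  refine ⟨fun a p => M (Pi.single p 1) a, fun c a => ?_⟩
  have h1 : M (L c) = c := by
    have := congrArg (fun f => f c) hM
    simpa using this
  have h2 : L c = ∑ p, (L c p) • (Pi.single p 1 : (Fin n → Fin (D + 1)) → ℝ) := by
    funext q
    simp [Finset.sum_apply, Pi.single_apply]
  conv_lhs => rw [← h1, h2, map_sum]
  rw [Finset.sum_apply]
  refine Finset.sum_congr rfl (fun p _ => ?_)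
  rw [map_smul, Pi.smul_apply, smul_eq_mul, mul_comm]
  rfl

/-- **Closedness of the cone of sums of squares.**  If the functions `F j` are sums of squares of
polynomials of total degree at most `D` and converge pointwise to `G`, then `G` is a sum of squares
of polynomials. -/
theorem sos_closed (n D : ℕ) (F : ℕ → (Fin n → ℝ) → ℝ) (G : (Fin n → ℝ) → ℝ)
    (hF : ∀ j, ∃ (r : ℕ) (h : Fin r → MvPolynomial (Fin n) ℝ),
      (∀ i, (h i).totalDegree ≤ D) ∧ ∀ x, F j x = ∑ i, (eval x (h i)) ^ 2)
    (hlim : ∀ x, Tendsto (fun j => F j x) atTop (𝓝 (G x))) :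
    ∃ (r : ℕ) (h : Fin r → MvPolynomial (Fin n) ℝ), ∀ x, G x = ∑ i, (eval x (h i)) ^ 2 := by
  classical
  let ι := Fin n → Fin (D + 1)
  choose r h hdeg hsum using hF
  -- Gram matrices
  let c : ∀ j, Fin (r j) → ι → ℝ := fun j i d => coeff (expo d) (h j i)
  have hev : ∀ j i x, eval x (h j i) = ∑ d : ι, c j i d * mono d x := fun j i x =>
    eval_eq_sum _ (hdeg j i) x
  let Gr : ℕ → ι → ι → ℝ := fun j a b => ∑ i, c j i a * c j i b
  have hGr : ∀ j x, F j x = ∑ a : ι, ∑ b : ι, Gr j a b * (mono a x * mono b x) := by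
    intro j x
    rw [hsum]
    have : ∀ i, (eval x (h j i)) ^ 2 = ∑ a : ι, ∑ b : ι, (c j i a * c j i b) * (mono a x * mono b x) := by
      intro i
      rw [hev, sq, Finset.sum_mul_sum]
      refine Finset.sum_congr rfl (fun a _ => Finset.sum_congr rfl (fun b _ => ?_))
      ring
    rw [Finset.sum_congr rfl (fun i _ => this i), Finset.sum_comm]
    refine Finset.sum_congr rfl (fun a _ => ?_)
    rw [Finset.sum_comm]
    refine Finset.sum_congr rfl (fun b _ => ?_)
    rw [← Finset.sum_mul]
  obtain ⟨W, hW⟩ := exists_recover n D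
  -- bound on the diagonal
  have hdiag : ∀ j a, Gr j a a ≤ (∑ p, W a p ^ 2) * ∑ p : ι, F j (grid p) := by
    intro j a
    have h1 : ∀ i, c j i a * c j i a ≤
        (∑ p, W a p ^ 2) * ∑ p : ι, (eval (grid p) (h j i)) ^ 2 := by
      intro i
      have h2 : c j i a = ∑ p, W a p * eval (grid p) (h j i) := by
        rw [hW (c j i) a]
        refine Finset.sum_congr rfl (fun p _ => ?_)
        rw [hev]
      rw [← sq, h2]
      exact Finset.sum_mul_sq_le_sq_mul_sq _ _ _
    calc Gr j a a = ∑ i, c j i a * c j i a := rfl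
      _ ≤ ∑ i, (∑ p, W a p ^ 2) * ∑ p : ι, (eval (grid p) (h j i)) ^ 2 :=
        Finset.sum_le_sum (fun i _ => h1 i)
      _ = (∑ p, W a p ^ 2) * ∑ p : ι, F j (grid p) := by
        rw [← Finset.mul_sum, Finset.sum_comm]
        congr 1
        refine Finset.sum_congr rfl (fun p _ => ?_)
        rw [hsum]
  have hFb : ∃ C : ℝ, ∀ j, ∑ p : ι, F j (grid p) ≤ C := by
    have h1 : Tendsto (fun j => ∑ p : ι, F j (grid p)) atTop (𝓝 (∑ p : ι, G (grid p))) :=
      tendsto_finsetSum _ (fun p _ => hlim _)
    obtain ⟨C, hC⟩ := h1.bddAbove_range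
    exact ⟨C, fun j => hC ⟨j, rfl⟩⟩
  obtain ⟨C, hC⟩ := hFb
  obtain ⟨B, hB⟩ : ∃ B : ℝ, ∀ j a, Gr j a a ≤ B := by
    have hC0 : 0 ≤ ∑ a, (∑ p, W a p ^ 2) := by positivity
    refine ⟨(∑ a, ∑ p, W a p ^ 2) * max C 0, fun j a => (hdiag j a).trans ?_⟩
    apply mul_le_mul
    · exact Finset.single_le_sum (f := fun a => ∑ p, W a p ^ 2) (fun a _ => by positivity)
        (Finset.mem_univ a)
    · exact (hC j).trans (le_max_left _ _)
    · exact Finset.sum_nonneg (fun p _ => by
        rw [hsum]; exact Finset.sum_nonneg (fun i _ => sq_nonneg _))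
    · exact hC0
  have hbound : ∀ j a b, Gr j a b ∈ Set.Icc (-B) B := by
    intro j a b
    have h1 : 0 ≤ Gr j a a + Gr j b b + 2 * Gr j a b := by
      have : Gr j a a + Gr j b b + 2 * Gr j a b = ∑ i, (c j i a + c j i b) ^ 2 := by
        simp only [Gr]
        rw [← Finset.sum_add_distrib, Finset.mul_sum, ← Finset.sum_add_distrib]
        exact Finset.sum_congr rfl (fun i _ => by ring)
      rw [this]
      exact Finset.sum_nonneg (fun i _ => sq_nonneg _)
    have h2 : 0 ≤ Gr j a a + Gr j b b - 2 * Gr j a b := by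
      have : Gr j a a + Gr j b b - 2 * Gr j a b = ∑ i, (c j i a - c j i b) ^ 2 := by
        simp only [Gr]
        rw [← Finset.sum_add_distrib, Finset.mul_sum, ← Finset.sum_sub_distrib]
        exact Finset.sum_congr rfl (fun i _ => by ring)
      rw [this]
      exact Finset.sum_nonneg (fun i _ => sq_nonneg _)
    have := hB j a
    have := hB j b
    constructor <;> linarith
  -- compactness
  have hcpt : IsCompact (Set.univ.pi (fun _ : ι => Set.univ.pi (fun _ : ι => Set.Icc (-B) B))) :=
    isCompact_univ_pi (fun _ => isCompact_univ_pi (fun _ => isCompact_Icc))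
  obtain ⟨S, -, φ, hφ, hS⟩ := hcpt.tendsto_subseq (x := Gr)
    (fun j a _ b _ => hbound j a b)
  have hSab : ∀ a b, Tendsto (fun j => Gr (φ j) a b) atTop (𝓝 (S a b)) := by
    intro a b
    have := tendsto_pi_nhds.mp hS a
    exact tendsto_pi_nhds.mp this b
  -- the limit matrix is positive semidefinite
  let A : Matrix ι ι ℝ := fun a b => S a b
  have hA : A.PosSemidef := by
    apply Matrix.PosSemidef.of_dotProduct_mulVec_nonneg
    · ext a b
      rw [Matrix.conjTranspose_apply, star_trivial]
      have h1 := hSab b a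
      have h2 : (fun j => Gr (φ j) b a) = (fun j => Gr (φ j) a b) := by
        funext j
        exact Finset.sum_congr rfl (fun i _ => mul_comm _ _)
      rw [h2] at h1
      exact tendsto_nhds_unique h1 (hSab a b)
    · intro x
      have h1 : star x ⬝ᵥ A.mulVec x = ∑ a, ∑ b, S a b * (x a * x b) := by
        simp only [dotProduct, Matrix.mulVec, Pi.star_apply, star_trivial, Finset.mul_sum]
        refine Finset.sum_congr rfl (fun a _ => Finset.sum_congr rfl (fun b _ => ?_))
        change x a * (S a b * x b) = _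
        ring
      rw [h1]
      have h2 : Tendsto (fun j => ∑ a, ∑ b, Gr (φ j) a b * (x a * x b)) atTop
          (𝓝 (∑ a, ∑ b, S a b * (x a * x b))) :=
        tendsto_finsetSum _ (fun a _ => tendsto_finsetSum _ (fun b _ =>
          (hSab a b).mul_const _))
      apply ge_of_tendsto' h2
      intro j
      have h3 : ∑ a, ∑ b, Gr (φ j) a b * (x a * x b) = ∑ i, (∑ a, c (φ j) i a * x a) ^ 2 := by
        have h4 : ∀ i, (∑ a, c (φ j) i a * x a) ^ 2 =
            ∑ a, ∑ b, (c (φ j) i a * c (φ j) i b) * (x a * x b) := by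
          intro i
          rw [sq, Finset.sum_mul_sum]
          refine Finset.sum_congr rfl (fun a _ => Finset.sum_congr rfl (fun b _ => ?_))
          ring
        rw [Finset.sum_congr rfl (fun i _ => h4 i)]
        symm
        rw [Finset.sum_comm]
        refine Finset.sum_congr rfl (fun a _ => ?_)
        rw [Finset.sum_comm]
        refine Finset.sum_congr rfl (fun b _ => ?_)
        rw [← Finset.sum_mul]
      rw [h3]
      exact Finset.sum_nonneg (fun i _ => sq_nonneg _)
  open scoped MatrixOrder in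
  obtain ⟨M, hM⟩ := CStarAlgebra.nonneg_iff_eq_star_mul_self.mp hA.nonneg
  have hSM : ∀ a b, S a b = ∑ k, M k a * M k b := by
    intro a b
    have h1 : A a b = (star M * M) a b := by rw [← hM]
    rw [Matrix.mul_apply] at h1
    simpa [A, Matrix.star_apply] using h1
  let e := Fintype.equivFin ι
  refine ⟨Fintype.card ι, fun k => poly (fun d => M (e.symm k) d), fun x => ?_⟩
  have hlim1 : Tendsto (fun j => F (φ j) x) atTop (𝓝 (G x)) :=
    (hlim x).comp hφ.tendsto_atTop
  have hlim2 : Tendsto (fun j => F (φ j) x) atTop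
      (𝓝 (∑ a : ι, ∑ b : ι, S a b * (mono a x * mono b x))) := by
    simp only [hGr]
    exact tendsto_finsetSum _ (fun a _ => tendsto_finsetSum _ (fun b _ =>
      (hSab a b).mul_const _))
  rw [tendsto_nhds_unique hlim1 hlim2]
  have h5 : ∑ k, (eval x (poly (fun d => M (e.symm k) d))) ^ 2 =
      ∑ k : ι, (∑ d, M k d * mono d x) ^ 2 := by
    rw [← Equiv.sum_comp e.symm (fun k : ι => (∑ d, M k d * mono d x) ^ 2)]
    refine Finset.sum_congr rfl (fun k _ => ?_)
    rw [eval_poly]
  rw [h5]
  have h6 : ∀ k : ι, (∑ d, M k d * mono d x) ^ 2 =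
      ∑ a : ι, ∑ b : ι, (M k a * M k b) * (mono a x * mono b x) := by
    intro k
    rw [sq, Finset.sum_mul_sum]
    refine Finset.sum_congr rfl (fun a _ => Finset.sum_congr rfl (fun b _ => ?_))
    ring
  rw [Finset.sum_congr rfl (fun k _ => h6 k)]
  symm
  rw [Finset.sum_comm]
  refine Finset.sum_congr rfl (fun a _ => ?_)
  rw [Finset.sum_comm]
  refine Finset.sum_congr rfl (fun b _ => ?_)
  rw [← Finset.sum_mul, hSM]

end Pool.Agent.Q81.SosClosed
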