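import Mathlib

set_option autoImplicit false

open Polynomial

namespace Pool.Agent.Q81.StubAlg

/-- the four sections of degree `1` -/
noncomputable def p0 : ℝ[X] := 2 * X ^ 2 + 221
noncomputable def p1 : ℝ[X] := X ^ 3 + 111 * X
noncomputable def Q : ℝ[X] := (X ^ 2 + 100) * (X ^ 2 + 121)
noncomputable def φ : Fin 4 → ℝ[X] := ![p0, p1, Q, X * Q]

/-- pull back of a polynomial in four variables to the line -/
noncomputable def pull (G : MvPolynomial (Fin 4) ℝ) : ℝ[X] := MvPolynomial.aeval φ G

/-- the two points which are glued -/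
noncomputable def z : ℂ := 10 * Complex.I
noncomputable def w : ℂ := 11 * Complex.I

lemma z_sq : z ^ 2 = -100 := by
  unfold z; rw [mul_pow, Complex.I_sq]; norm_num

lemma w_sq : w ^ 2 = -121 := by
  unfold w; rw [mul_pow, Complex.I_sq]; norm_num

lemma aeval_homog {k : ℕ} {G : MvPolynomial (Fin 4) ℝ} (hG : G.IsHomogeneous k) {A : Type*}
    [CommRing A] [Algebra ℝ A] (c : A) (v : Fin 4 → A) :
    MvPolynomial.aeval (fun i => c * v i) G = c ^ k * MvPolynomial.aeval v G := by
  rw [MvPolynomial.aeval_def, MvPolynomial.aeval_def, MvPolynomial.eval₂_eq',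
    MvPolynomial.eval₂_eq', Finset.mul_sum]
  refine Finset.sum_congr rfl (fun d hd => ?_)
  have hdeg : ∑ i, d i = k := by
    have h := hG (MvPolynomial.mem_support_iff.mp hd)
    rw [Finsupp.weight_apply, Finsupp.sum_fintype _ _ (by simp)] at h
    simpa using h
  rw [← hdeg, ← Finset.prod_pow_eq_pow_sum]
  simp only [mul_pow, Finset.prod_mul_distrib]
  ring

lemma φ_natDegree (i : Fin 4) : (φ i).natDegree ≤ 5 := by
  fin_cases i
  · change p0.natDegree ≤ 5; unfold p0; compute_degree!
  · change p1.natDegree ≤ 5; unfold p1; compute_degree!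
  · change Q.natDegree ≤ 5; unfold Q; compute_degree!
  · change (X * Q).natDegree ≤ 5; unfold Q; compute_degree!

lemma pull_natDegree {k : ℕ} {G : MvPolynomial (Fin 4) ℝ} (hG : G.IsHomogeneous k) :
    (pull G).natDegree ≤ 5 * k := by
  unfold pull
  rw [MvPolynomial.aeval_def, MvPolynomial.eval₂_eq']
  apply natDegree_sum_le_of_forall_le
  intro d hd
  have hdeg : ∑ i, d i = k := by
    have h := hG (MvPolynomial.mem_support_iff.mp hd)
    rw [Finsupp.weight_apply, Finsupp.sum_fintype _ _ (by simp)] at h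
    simpa using h
  rw [← C_eq_algebraMap]
  refine (natDegree_C_mul_le _ _).trans ?_
  refine (natDegree_prod_le _ _).trans ?_
  rw [← hdeg, Finset.mul_sum]
  apply Finset.sum_le_sum
  intro i _
  refine natDegree_pow_le.trans ?_
  rw [mul_comm]
  exact Nat.mul_le_mul_right _ (φ_natDegree i)

lemma aeval_pull (G : MvPolynomial (Fin 4) ℝ) (x : ℂ) :
    aeval x (pull G) = MvPolynomial.aeval (fun i => aeval x (φ i)) G := by
  unfold pull
  rw [← MvPolynomial.comp_aeval_apply]

lemma eval_pull (G : MvPolynomial (Fin 4) ℝ) (t : ℝ) :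
    (pull G).eval t = MvPolynomial.eval (fun i => (φ i).eval t) G := by
  have h : aeval t (pull G) = MvPolynomial.aeval (fun i => aeval t (φ i)) G := by
    unfold pull
    rw [← MvPolynomial.comp_aeval_apply]
  simpa [MvPolynomial.aeval_eq_eval, Polynomial.coe_aeval_eq_eval] using h

lemma φz : (fun i => aeval z (φ i)) = ![21, 110 * Complex.I, 0, 0] := by
  have h := z_sq
  funext i
  fin_cases i
  · change aeval z p0 = 21
    unfold p0
    simp only [map_add, map_mul, map_pow, aeval_X, map_ofNat, h]; norm_num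
  · change aeval z p1 = 110 * Complex.I
    unfold p1
    simp only [map_add, map_mul, map_pow, aeval_X, map_ofNat]
    rw [pow_succ, h]; unfold z; ring
  · change aeval z Q = 0
    unfold Q
    simp only [map_add, map_mul, map_pow, aeval_X, map_ofNat, h]; norm_num
  · change aeval z (X * Q) = 0
    unfold Q
    simp only [map_add, map_mul, map_pow, aeval_X, map_ofNat, h]; norm_num

lemma φw : (fun i => aeval w (φ i)) = fun i => (-1 : ℂ) * aeval z (φ i) := by
  have h := w_sq
  have hz := φz
  funext i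
  have hzi := congrFun hz i
  rw [hzi]
  fin_cases i
  · change aeval w p0 = -1 * 21
    unfold p0
    simp only [map_add, map_mul, map_pow, aeval_X, map_ofNat, h]; norm_num
  · change aeval w p1 = -1 * (110 * Complex.I)
    unfold p1
    simp only [map_add, map_mul, map_pow, aeval_X, map_ofNat]
    rw [pow_succ, h]; unfold w; ring
  · change aeval w Q = -1 * 0
    unfold Q
    simp only [map_add, map_mul, map_pow, aeval_X, map_ofNat, h]; norm_num
  · change aeval w (X * Q) = -1 * 0
    unfold Q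
    simp only [map_add, map_mul, map_pow, aeval_X, map_ofNat, h]; norm_num

lemma pull_twist {k : ℕ} {G : MvPolynomial (Fin 4) ℝ} (hG : G.IsHomogeneous k) :
    aeval w (pull G) = (-1) ^ k * aeval z (pull G) := by
  rw [aeval_pull, aeval_pull, φw, aeval_homog hG]

/-- `u` is the pull back of a form of degree `k` -/
def Lift (k : ℕ) (u : ℝ[X]) : Prop := ∃ G : MvPolynomial (Fin 4) ℝ, G.IsHomogeneous k ∧ pull G = u

lemma Lift.add {k : ℕ} {u v : ℝ[X]} (hu : Lift k u) (hv : Lift k v) : Lift k (u + v) := by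
  obtain ⟨G, hG, rfl⟩ := hu
  obtain ⟨H, hH, rfl⟩ := hv
  exact ⟨G + H, hG.add hH, by unfold pull; rw [map_add]⟩

lemma Lift.mul {j k : ℕ} {u v : ℝ[X]} (hu : Lift j u) (hv : Lift k v) : Lift (j + k) (u * v) := by
  obtain ⟨G, hG, rfl⟩ := hu
  obtain ⟨H, hH, rfl⟩ := hv
  exact ⟨G * H, hG.mul hH, by unfold pull; rw [map_mul]⟩

lemma Lift.smul {k : ℕ} {u : ℝ[X]} (c : ℝ) (hu : Lift k u) : Lift k (C c * u) := by
  obtain ⟨G, hG, rfl⟩ := hu
  refine ⟨MvPolynomial.C c * G, hG.C_mul c, ?_⟩
  unfold pull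
  rw [map_mul, MvPolynomial.aeval_C, C_eq_algebraMap]

lemma Lift.sum {k : ℕ} {ι : Type*} (s : Finset ι) (f : ι → ℝ[X]) (h : ∀ i ∈ s, Lift k (f i)) :
    Lift k (∑ i ∈ s, f i) := by
  classical
  induction s using Finset.induction_on with
  | empty =>
    rw [Finset.sum_empty]
    exact ⟨0, MvPolynomial.isHomogeneous_zero _ _ _, by unfold pull; rw [map_zero]⟩
  | insert i s hi ih =>
    rw [Finset.sum_insert hi]
    exact (h i (Finset.mem_insert_self i s)).add (ih fun j hj => h j (Finset.mem_insert_of_mem hj))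

lemma Lift.natDegree_le {k : ℕ} {u : ℝ[X]} (hu : Lift k u) : u.natDegree ≤ 5 * k := by
  obtain ⟨G, hG, rfl⟩ := hu
  exact pull_natDegree hG

lemma Lift.twist {k : ℕ} {u : ℝ[X]} (hu : Lift k u) : aeval w u = (-1) ^ k * aeval z u := by
  obtain ⟨G, hG, rfl⟩ := hu
  exact pull_twist hG

lemma lift_φ (i : Fin 4) : Lift 1 (φ i) :=
  ⟨MvPolynomial.X i, MvPolynomial.isHomogeneous_X _ _, by unfold pull; rw [MvPolynomial.aeval_X]⟩

lemma lift_p0 : Lift 1 p0 := lift_φ 0
lemma lift_p1 : Lift 1 p1 := lift_φ 1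
lemma lift_Q : Lift 1 Q := lift_φ 2
lemma lift_XQ : Lift 1 (X * Q) := lift_φ 3

lemma C_half : (C (1 / 2 : ℝ) : ℝ[X]) * 2 = 1 := by
  have : (2 : ℝ[X]) = C 2 := (map_ofNat C 2).symm
  rw [this, ← C_mul]; norm_num

lemma C_55 : (C (-1 / 55 : ℝ) : ℝ[X]) * 55 = -1 := by
  have : (55 : ℝ[X]) = C 55 := (map_ofNat C 55).symm
  rw [this, ← C_mul]
  norm_num

lemma liftQ0 : Lift 2 (Q * X ^ 0) := by
  have h := ((lift_Q.mul lift_Q).add (((lift_XQ.mul lift_p1).smul (-1)).add
    ((lift_Q.mul lift_p0).smul (-55)))).smul (-1 / 55)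
  convert h using 1
  have h1 := C_55
  simp only [map_neg, map_ofNat, map_one, C_1] at *
  unfold Q p0 p1
  linear_combination ((X ^ 2 + 100) * (X ^ 2 + 121)) * h1

lemma liftQ1 : Lift 2 (Q * X ^ 1) := by
  have h := ((lift_Q.mul lift_p1).smul 2).add ((lift_XQ.mul lift_p0).smul (-1))
  convert h using 1
  simp only [map_neg, map_ofNat, map_one]
  unfold Q p0 p1
  ring

lemma liftQ2 : Lift 2 (Q * X ^ 2) := by
  have h := ((lift_Q.mul lift_p0).add (liftQ0.smul (-221))).smul (1 / 2)
  convert h using 1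
  have h1 := C_half
  simp only [map_neg, map_ofNat]
  unfold Q p0
  linear_combination (-(X ^ 2 + 100) * (X ^ 2 + 121) * X ^ 2) * h1

lemma liftQ3 : Lift 2 (Q * X ^ 3) := by
  have h := (lift_Q.mul lift_p1).add (liftQ1.smul (-111))
  convert h using 1
  simp only [map_neg, map_ofNat]
  unfold Q p1
  ring

lemma liftQ4 : Lift 2 (Q * X ^ 4) := by
  have h := (lift_XQ.mul lift_p1).add (liftQ2.smul (-111))
  convert h using 1
  simp only [map_neg, map_ofNat]
  unfold Q p1
  ring

lemma liftQ5 : Lift 2 (Q * X ^ 5) := by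
  have h := (lift_XQ.mul lift_Q).add ((liftQ3.smul (-221)).add (liftQ1.smul (-12100)))
  convert h using 1
  simp only [map_neg, map_ofNat]
  unfold Q
  ring

lemma liftQ6 : Lift 2 (Q * X ^ 6) := by
  have h := (lift_XQ.mul lift_XQ).add ((liftQ4.smul (-221)).add (liftQ2.smul (-12100)))
  convert h using 1
  simp only [map_neg, map_ofNat]
  unfold Q
  ring

lemma cond2 {v : ℝ[X]} (hv : v.natDegree ≤ 6) : Lift 2 (Q * v) := by
  rw [v.as_sum_range_C_mul_X_pow' (show v.natDegree < 7 by omega), Finset.mul_sum]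
  apply Lift.sum
  intro i hi
  have hi' : i < 7 := Finset.mem_range.mp hi
  have h : Lift 2 (Q * X ^ i) := by
    interval_cases i
    · exact liftQ0
    · exact liftQ1
    · exact liftQ2
    · exact liftQ3
    · exact liftQ4
    · exact liftQ5
    · exact liftQ6
  have h2 := h.smul (v.coeff i)
  convert h2 using 1
  ring

lemma XQ_monic : (X * Q : ℝ[X]).Monic := by
  unfold Q
  monicity!

lemma XQ_natDegree : (X * Q : ℝ[X]).natDegree = 5 := by
  unfold Q
  compute_degree!

lemma Q_natDegree : (Q : ℝ[X]).natDegree = 4 := by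
  unfold Q
  compute_degree!

lemma Q_ne_zero : Q ≠ 0 := by
  intro h
  have := Q_natDegree
  rw [h] at this
  simp at this

lemma condk (k : ℕ) (hk : 2 ≤ k) : ∀ v : ℝ[X], v.natDegree + 4 ≤ 5 * k → Lift k (Q * v) := by
  induction k, hk using Nat.le_induction with
  | base => intro v hv; exact cond2 (by omega)
  | succ k hk ih =>
    intro v hv
    set v1 := v /ₘ (X * Q) with hv1
    set v0 := v %ₘ (X * Q) with hv0
    have hdec : v = v0 + X * Q * v1 := (modByMonic_add_div v (X * Q)).symm
    have hd1 : v1.natDegree = v.natDegree - 5 := by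
      rw [hv1, natDegree_divByMonic v XQ_monic, XQ_natDegree]
    have hd0 : v0.natDegree < 5 := by
      have := natDegree_modByMonic_lt v XQ_monic (by
        intro h
        have := XQ_natDegree
        rw [h] at this
        simp at this)
      rwa [XQ_natDegree] at this
    have h1 : Lift (1 + k) (X * Q * (Q * v1)) := lift_XQ.mul (ih v1 (by omega))
    have hdX : (X * v0).natDegree ≤ 5 := by
      refine natDegree_mul_le.trans ?_
      rw [natDegree_X]; omega
    have h2 : Lift (1 + k) (Q * v0) := by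
      have h := ((lift_Q.mul (ih v0 (by omega))).add
        (((lift_p1.mul (ih (X * v0) (by omega))).smul (-1)).add
        ((lift_p0.mul (ih v0 (by omega))).smul (-55)))).smul (-1 / 55)
      convert h using 1
      have h1 := C_55
      simp only [map_neg, map_ofNat, map_one]
      unfold Q p0 p1
      linear_combination ((X ^ 2 + 100) * (X ^ 2 + 121) * v0) * h1
    have h3 := h1.add h2
    rw [add_comm 1 k] at h3
    convert h3 using 1
    rw [hdec]
    ring_nf

/-- vanishing at `z` and `w` means divisibility by `Q` -/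
lemma Q_dvd {u : ℝ[X]} (hz : aeval z u = 0) (hw : aeval w u = 0) : Q ∣ u := by
  have h1 := Polynomial.quadratic_dvd_of_aeval_eq_zero_im_ne_zero u hz (by unfold z; simp)
  have h2 := Polynomial.quadratic_dvd_of_aeval_eq_zero_im_ne_zero u hw (by unfold w; simp)
  have e1 : (X ^ 2 - C (2 * z.re) * X + C (‖z‖ ^ 2) : ℝ[X]) = X ^ 2 + 100 := by
    have a1 : 2 * z.re = 0 := by unfold z; simp
    have a2 : ‖z‖ ^ 2 = 100 := by
      rw [Complex.sq_norm, Complex.normSq_apply]
      unfold z
      simp
      norm_num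
    rw [a1, a2, C_0]
    have : (C (100 : ℝ) : ℝ[X]) = 100 := map_ofNat C 100
    rw [this]; ring
  have e2 : (X ^ 2 - C (2 * w.re) * X + C (‖w‖ ^ 2) : ℝ[X]) = X ^ 2 + 121 := by
    have a1 : 2 * w.re = 0 := by unfold w; simp
    have a2 : ‖w‖ ^ 2 = 121 := by
      rw [Complex.sq_norm, Complex.normSq_apply]
      unfold w
      simp
      norm_num
    rw [a1, a2, C_0]
    have : (C (121 : ℝ) : ℝ[X]) = 121 := map_ofNat C 121
    rw [this]; ring
  rw [e1] at h1
  rw [e2] at h2
  have hco : IsCoprime (X ^ 2 + 100 : ℝ[X]) (X ^ 2 + 121) := by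
    refine ⟨C (-1 / 21), C (1 / 21), ?_⟩
    have h : (C (1 / 21 : ℝ) : ℝ[X]) * 21 = 1 := by
      have : (21 : ℝ[X]) = C 21 := (map_ofNat C 21).symm
      rw [this, ← C_mul]; norm_num
    have h' : (C (-1 / 21 : ℝ) : ℝ[X]) = - C (1 / 21) := by
      rw [← C_neg]; norm_num
    rw [h']
    linear_combination h
  exact hco.mul_dvd h1 h2

lemma aeval_Q_z : aeval z Q = 0 := by
  unfold Q
  simp only [map_add, map_mul, map_pow, aeval_X, map_ofNat, z_sq]; norm_num

lemma aeval_Q_w : aeval w Q = 0 := by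
  unfold Q
  simp only [map_add, map_mul, map_pow, aeval_X, map_ofNat, w_sq]; norm_num

/-- **Generation in degree one**: every polynomial of degree `≤ 5k` with the right gluing condition
is the pull back of a form of degree `k`, for `k ≥ 2`. -/
theorem full {k : ℕ} (hk : 2 ≤ k) {u : ℝ[X]} (hu : u.natDegree ≤ 5 * k)
    (htw : aeval w u = (-1) ^ k * aeval z u) : Lift k u := by
  obtain ⟨j, rfl⟩ : ∃ j, k = j + 1 := ⟨k - 1, by omega⟩
  have hp : ∀ n : ℕ, Lift n (p0 ^ n) := by
    intro n
    induction n with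
    | zero => exact ⟨1, MvPolynomial.isHomogeneous_one _ _, by unfold pull; simp⟩
    | succ n ih => rw [pow_succ]; exact ih.mul lift_p0
  have hz := φz
  have hz0 : aeval z p0 = 21 := congrFun hz 0
  have hz1 : aeval z p1 = 110 * Complex.I := congrFun hz 1
  set α : ℝ := (aeval z u).re / 21 ^ (j + 1) with hα
  set β : ℝ := (aeval z u).im / (21 ^ j * 110) with hβ
  have hA : Lift (j + 1) (p0 ^ (j + 1)) := hp (j + 1)
  have hB : Lift (j + 1) (p0 ^ j * p1) := (hp j).mul lift_p1
  set u' := u - C α * p0 ^ (j + 1) - C β * (p0 ^ j * p1) with hu'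
  have hα2 : (α : ℂ) * 21 ^ (j + 1) = (aeval z u).re := by
    rw [hα]; push_cast; field_simp
  have hβ2 : (β : ℂ) * (21 ^ j * 110) = (aeval z u).im := by
    rw [hβ]; push_cast; field_simp
  have hz' : aeval z u' = 0 := by
    rw [hu', map_sub, map_sub, map_mul, map_mul, map_mul, map_pow, map_pow, hz0, hz1, aeval_C,
      aeval_C]
    have hre := Complex.re_add_im (aeval z u)
    change aeval z u - (α : ℂ) * 21 ^ (j + 1) - (β : ℂ) * (21 ^ j * (110 * Complex.I)) = 0
    linear_combination -hre - hα2 - Complex.I * hβ2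
  have htw' : aeval w u' = (-1) ^ (j + 1) * aeval z u' := by
    have h1 := (hA.smul α).twist
    have h2 := (hB.smul β).twist
    rw [hu', map_sub, map_sub, map_sub, map_sub, htw, h1, h2]
    ring
  have hw' : aeval w u' = 0 := by rw [htw', hz', mul_zero]
  obtain ⟨v, hv⟩ := Q_dvd hz' hw'
  have hdu' : u'.natDegree ≤ 5 * (j + 1) := by
    rw [hu']
    refine (natDegree_sub_le _ _).trans (max_le ((natDegree_sub_le _ _).trans (max_le hu ?_)) ?_)
    · exact (hA.smul α).natDegree_le
    · exact (hB.smul β).natDegree_le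
  have hlift : Lift (j + 1) u' := by
    by_cases hv0 : v = 0
    · rw [hv, hv0, mul_zero]
      exact ⟨0, MvPolynomial.isHomogeneous_zero _ _ _, by unfold pull; rw [map_zero]⟩
    · rw [hv]
      apply condk _ hk
      rw [hv, natDegree_mul Q_ne_zero hv0, Q_natDegree] at hdu'
      omega
  have hfin := (hlift.add (hA.smul α)).add (hB.smul β)
  convert hfin using 1
  rw [hu']
  ring

end Pool.Agent.Q81.StubAlg
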