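import Mathlib

set_option autoImplicit false

open Polynomial

namespace Pool.Agent.Q81.StubFactor

/-- Continuity: a polynomial which is nonnegative off a point is nonnegative. -/
lemma nonneg_of_ne {f : ℝ[X]} {a : ℝ} (h : ∀ t, t ≠ a → 0 ≤ f.eval t) : ∀ t, 0 ≤ f.eval t := by
  intro t
  by_contra hneg
  push Not at hneg
  have hopen : IsOpen {s : ℝ | f.eval s < 0} := isOpen_lt f.continuous continuous_const
  have hinf : {s : ℝ | f.eval s < 0}.Infinite := infinite_of_mem_nhds t (hopen.mem_nhds hneg)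
  obtain ⟨u, hu1, hu2⟩ := (hinf.sdiff (Set.finite_singleton a)).nonempty
  have h2 : f.eval u < 0 := hu1
  have := h u hu2
  linarith

/-- Division by the square of a linear factor. -/
lemma root_sq {f : ℝ[X]} (hf : ∀ t, 0 ≤ f.eval t) {a : ℝ} (ha : f.eval a = 0) :
    ∃ g : ℝ[X], f = (X - C a) ^ 2 * g ∧ ∀ t, 0 ≤ g.eval t := by
  obtain ⟨f1, hf1⟩ := dvd_iff_isRoot.mpr (show f.IsRoot a from ha)
  have hmin : IsLocalMin (fun s : ℝ => f.eval s) a := by
    filter_upwards with s
    rw [ha]
    exact hf s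
  have hder : (derivative f).eval a = 0 := by
    have h3 := hmin.deriv_eq_zero
    rwa [Polynomial.deriv] at h3
  have h1 : f1.eval a = 0 := by
    rw [hf1, derivative_mul] at hder
    simpa using hder
  obtain ⟨f2, hf2⟩ := dvd_iff_isRoot.mpr (show f1.IsRoot a from h1)
  have h4 : f = (X - C a) ^ 2 * f2 := by rw [hf1, hf2]; ring
  refine ⟨f2, h4, nonneg_of_ne (a := a) ?_⟩
  intro t ht
  have h5 := hf t
  rw [h4, eval_mul, eval_pow, eval_sub, eval_X, eval_C] at h5
  have h6 : 0 < (t - a) ^ 2 := by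
    have : t - a ≠ 0 := sub_ne_zero.mpr ht
    positivity
  exact nonneg_of_mul_nonneg_right h5 h6

/-- the real rooted polynomial with the given roots -/
noncomputable def realRooted (l : List ℝ) : ℝ[X] := (l.map fun a => X - C a).prod

lemma realRooted_cons (a : ℝ) (l : List ℝ) :
    realRooted (a :: l) = (X - C a) * realRooted l := by
  simp [realRooted]

lemma realRooted_nil : realRooted [] = 1 := by simp [realRooted]

lemma realRooted_ne_zero (l : List ℝ) : realRooted l ≠ 0 := by
  induction l with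
  | nil => rw [realRooted_nil]; exact one_ne_zero
  | cons a l ih => rw [realRooted_cons]; exact mul_ne_zero (X_sub_C_ne_zero a) ih

lemma realRooted_natDegree (l : List ℝ) : (realRooted l).natDegree = l.length := by
  induction l with
  | nil => rw [realRooted_nil]; simp
  | cons a l ih =>
    rw [realRooted_cons, natDegree_mul (X_sub_C_ne_zero a) (realRooted_ne_zero l), ih,
      natDegree_X_sub_C, List.length_cons]
    ring

/-- `f = h^2 q` with `h` real rooted and `q` positive. -/
lemma factor_real {f : ℝ[X]} (hf0 : f ≠ 0) (hf : ∀ t, 0 ≤ f.eval t) :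
    ∃ (l : List ℝ) (q : ℝ[X]), f = realRooted l ^ 2 * q ∧ ∀ t, 0 < q.eval t := by
  induction hn : f.natDegree using Nat.strong_induction_on generalizing f with
  | _ n ih =>
    by_cases hroot : ∃ a, f.eval a = 0
    · obtain ⟨a, ha⟩ := hroot
      obtain ⟨g, hg, hg2⟩ := root_sq hf ha
      have hg0 : g ≠ 0 := by rintro rfl; exact hf0 (by rw [hg, mul_zero])
      have hdeg : g.natDegree < n := by
        rw [← hn, hg, natDegree_mul (pow_ne_zero 2 (X_sub_C_ne_zero a)) hg0, natDegree_pow,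
          natDegree_X_sub_C]
        omega
      obtain ⟨l, q, h1, h2⟩ := ih _ hdeg hg0 hg2 rfl
      exact ⟨a :: l, q, by rw [hg, h1, realRooted_cons]; ring, h2⟩
    · push Not at hroot
      exact ⟨[], f, by rw [realRooted_nil]; ring, fun t => lt_of_le_of_ne (hf t) (hroot t).symm⟩

/-- product of positive quadratics -/
noncomputable def quads (l : List (ℝ × ℝ)) : ℝ[X] :=
  (l.map fun x => (X - C x.1) ^ 2 + C (x.2 ^ 2)).prod

lemma quads_cons (x : ℝ × ℝ) (l : List (ℝ × ℝ)) :
    quads (x :: l) = ((X - C x.1) ^ 2 + C (x.2 ^ 2)) * quads l := by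
  simp [quads]

lemma quads_nil : quads [] = 1 := by simp [quads]

/-- A positive polynomial is a product of quadratics. -/
lemma factor_pos {q : ℝ[X]} (hq : ∀ t, 0 < q.eval t) :
    ∃ (c : ℝ) (l : List (ℝ × ℝ)), 0 < c ∧ (∀ x ∈ l, 0 < x.2) ∧ q = C c * quads l := by
  induction hn : q.natDegree using Nat.strong_induction_on generalizing q with
  | _ n ih =>
    by_cases hdeg : q.natDegree = 0
    · rw [natDegree_eq_zero] at hdeg
      obtain ⟨c, rfl⟩ := hdeg
      refine ⟨c, [], by simpa using hq 0, by simp, by rw [quads_nil, mul_one]⟩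
    · have hq0 : q ≠ 0 := by rintro rfl; simp at hdeg
      obtain ⟨z, hz⟩ := IsAlgClosed.exists_aeval_eq_zero ℂ q (by
        intro h
        exact hdeg (natDegree_eq_of_degree_eq_some h))
      have him : z.im ≠ 0 := by
        intro h
        have h1 : z = (z.re : ℂ) := by
          apply Complex.ext <;> simp [h]
        rw [h1] at hz
        have h2 : ((q.eval z.re : ℝ) : ℂ) = 0 := by
          rw [← hz]
          exact (Polynomial.aeval_algebraMap_apply_eq_algebraMap_eval z.re q).symm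
        have h3 : q.eval z.re = 0 := by exact_mod_cast h2
        exact (hq z.re).ne' h3
      obtain ⟨g, hg⟩ := Polynomial.quadratic_dvd_of_aeval_eq_zero_im_ne_zero q hz him
      have hquad : (X ^ 2 - C (2 * z.re) * X + C (‖z‖ ^ 2) : ℝ[X]) =
          (X - C z.re) ^ 2 + C (|z.im| ^ 2) := by
        rw [sq_abs, Complex.sq_norm, Complex.normSq_apply]
        simp only [map_mul, map_add, map_pow, map_ofNat]
        ring
      rw [hquad] at hg
      have hb : 0 < |z.im| := abs_pos.mpr him
      have hval : ∀ t, 0 < ((X - C z.re) ^ 2 + C (|z.im| ^ 2) : ℝ[X]).eval t := by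
        intro t
        simp only [eval_add, eval_pow, eval_sub, eval_X, eval_C]
        positivity
      have hg0 : g ≠ 0 := by rintro rfl; exact hq0 (by rw [hg, mul_zero])
      have hQ0 : ((X - C z.re) ^ 2 + C (|z.im| ^ 2) : ℝ[X]) ≠ 0 := by
        intro h
        have := hval 0
        rw [h] at this
        simp at this
      have hgpos : ∀ t, 0 < g.eval t := by
        intro t
        have h1 := hq t
        rw [hg, eval_mul] at h1
        exact (pos_iff_pos_of_mul_pos h1).mp (hval t)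
      have hdQ : ((X - C z.re) ^ 2 + C (|z.im| ^ 2) : ℝ[X]).natDegree = 2 := by
        rw [← hquad]
        have : (X ^ 2 - C (2 * z.re) * X + C (‖z‖ ^ 2) : ℝ[X]) =
            C 1 * X ^ 2 + C (-(2 * z.re)) * X + C (‖z‖ ^ 2) := by
          rw [C_1, C_neg]; ring
        rw [this]
        exact natDegree_quadratic one_ne_zero
      have hlt : g.natDegree < n := by
        rw [← hn, hg, natDegree_mul hQ0 hg0, hdQ]
        omega
      obtain ⟨c, l, hc, hl, h2⟩ := ih _ hlt hgpos rfl
      refine ⟨c, (z.re, |z.im|) :: l, hc, ?_, ?_⟩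
      · intro x hx
        rcases List.mem_cons.mp hx with rfl | hx
        · exact hb
        · exact hl x hx
      · rw [hg, h2, quads_cons]
        ring

/-- A positive constant times a product of quadratics is a sum of two squares. -/
lemma quads_two_sq (c : ℝ) (hc : 0 < c) (l : List (ℝ × ℝ)) :
    ∃ u v : ℝ[X], C c * quads l = u ^ 2 + v ^ 2 := by
  induction l with
  | nil =>
    refine ⟨C (Real.sqrt c), 0, ?_⟩
    rw [quads_nil, ← C_pow, Real.sq_sqrt hc.le]
    ring
  | cons x l ih =>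
    obtain ⟨u, v, h⟩ := ih
    refine ⟨u * (X - C x.1) - v * C x.2, u * C x.2 + v * (X - C x.1), ?_⟩
    rw [quads_cons, C_pow]
    linear_combination ((X - C x.1) ^ 2 + C x.2 ^ 2) * h

/-- A nonnegative polynomial is a sum of two squares. -/
lemma two_sq {f : ℝ[X]} (hf : ∀ t, 0 ≤ f.eval t) : ∃ u v : ℝ[X], f = u ^ 2 + v ^ 2 := by
  by_cases hf0 : f = 0
  · exact ⟨0, 0, by rw [hf0]; ring⟩
  obtain ⟨l, q, h1, h2⟩ := factor_real hf0 hf
  obtain ⟨c, l', hc, _, h3⟩ := factor_pos h2
  obtain ⟨u, v, h4⟩ := quads_two_sq c hc l'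
  refine ⟨realRooted l * u, realRooted l * v, ?_⟩
  rw [h1, h3, h4]
  ring

lemma quad_lower (a b : ℝ) (hb : 0 < b) :
    ∃ c : ℝ, 0 < c ∧ ∀ t : ℝ, c * (1 + t ^ 2) ≤ (t - a) ^ 2 + b ^ 2 := by
  have hD : 0 < 1 + a ^ 2 + b ^ 2 := by positivity
  set c := b ^ 2 / (2 * (1 + a ^ 2 + b ^ 2)) with hc
  have hcpos : 0 < c := by positivity
  have hcD : c * (1 + a ^ 2 + b ^ 2) = b ^ 2 / 2 := by
    rw [hc]; field_simp
  have hc1 : c < 1 := by
    have : c * (1 + a ^ 2 + b ^ 2) < 1 * (1 + a ^ 2 + b ^ 2) := by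
      rw [hcD]; nlinarith [sq_nonneg a, sq_nonneg b]
    exact lt_of_mul_lt_mul_right this hD.le
  refine ⟨c, hcpos, fun t => ?_⟩
  have h1 : 0 < 1 - c := by linarith
  have key : 0 ≤ (1 - c) * ((t - a) ^ 2 + b ^ 2 - c * (1 + t ^ 2)) := by
    have : (1 - c) * ((t - a) ^ 2 + b ^ 2 - c * (1 + t ^ 2)) =
        ((1 - c) * t - a) ^ 2 + (b ^ 2 / 2 + c ^ 2 + (b ^ 2 / 2 - c * (1 + a ^ 2 + b ^ 2))) := by
      ring
    rw [this, hcD]
    nlinarith [sq_nonneg ((1 - c) * t - a), sq_nonneg b, sq_nonneg c]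
  have := nonneg_of_mul_nonneg_right key h1
  linarith

lemma quads_pos (l : List (ℝ × ℝ)) (hl : ∀ x ∈ l, 0 < x.2) :
    ∃ c : ℝ, 0 < c ∧ ∀ t : ℝ, c ≤ (quads l).eval t := by
  induction l with
  | nil => exact ⟨1, one_pos, fun t => by rw [quads_nil, eval_one]⟩
  | cons x l ih =>
    obtain ⟨c, hc, h⟩ := ih fun y hy => hl y (List.mem_cons_of_mem x hy)
    have hx := hl x List.mem_cons_self
    refine ⟨x.2 ^ 2 * c, by positivity, fun t => ?_⟩
    rw [quads_cons, eval_mul]
    simp only [eval_add, eval_pow, eval_sub, eval_X, eval_C]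
    apply mul_le_mul _ (h t) hc.le (by positivity)
    nlinarith [sq_nonneg (t - x.1)]

lemma quads_lower (l : List (ℝ × ℝ)) (hl : ∀ x ∈ l, 0 < x.2) (hne : l ≠ []) :
    ∃ c : ℝ, 0 < c ∧ ∀ t : ℝ, c * (1 + t ^ 2) ≤ (quads l).eval t := by
  cases l with
  | nil => exact absurd rfl hne
  | cons x l =>
    obtain ⟨c, hc, h⟩ := quads_pos l fun y hy => hl y (List.mem_cons_of_mem x hy)
    obtain ⟨c', hc', h'⟩ := quad_lower x.1 x.2 (hl x List.mem_cons_self)
    refine ⟨c' * c, by positivity, fun t => ?_⟩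
    rw [quads_cons, eval_mul]
    simp only [eval_add, eval_pow, eval_sub, eval_X, eval_C]
    calc c' * c * (1 + t ^ 2) = (c' * (1 + t ^ 2)) * c := by ring
      _ ≤ _ := mul_le_mul (h' t) (h t) hc.le (by positivity)

end Pool.Agent.Q81.StubFactor
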