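import Mathlib
import Pool.Agent.Q81.StubAlg

set_option autoImplicit false

open Polynomial

namespace Pool.Agent.Q81.StubInterp

open Pool.Agent.Q81.StubAlg

/-- complexification -/
noncomputable abbrev ι (p : ℝ[X]) : ℂ[X] := p.map (algebraMap ℝ ℂ)

/-- conjugate polynomial -/
noncomputable abbrev cj (p : ℂ[X]) : ℂ[X] := p.map (starRingEnd ℂ)

lemma aeval_eq (p : ℝ[X]) (x : ℂ) : aeval x p = (ι p).eval x := by
  rw [aeval_def, eval₂_eq_eval_map]

lemma cj_ι (p : ℝ[X]) : cj (ι p) = ι p := by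
  unfold cj ι
  rw [map_map]
  congr 1
  ext x
  · simp

lemma cj_cj (p : ℂ[X]) : cj (cj p) = p := by
  unfold cj
  rw [map_map]
  have : (starRingEnd ℂ).comp (starRingEnd ℂ) = RingHom.id ℂ := by
    ext x
    simp
  rw [this, Polynomial.map_id]

lemma exists_real (P : ℂ[X]) : ∃ R : ℝ[X], ι R = P + cj P := by
  induction P using Polynomial.induction_on' with
  | add p q hp hq =>
    obtain ⟨R, hR⟩ := hp
    obtain ⟨S, hS⟩ := hq
    refine ⟨R + S, ?_⟩
    unfold ι cj at *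
    rw [Polynomial.map_add, Polynomial.map_add, hR, hS]
    ring
  | monomial n a =>
    refine ⟨monomial n (2 * a.re), ?_⟩
    unfold ι cj
    rw [map_monomial, map_monomial, ← map_add, Complex.add_conj]
    simp

noncomputable def M : ℂ[X] := (X - C z) ^ 2 * (X - C w) ^ 2
noncomputable def Mc : ℂ[X] := (X + C z) ^ 2 * (X + C w) ^ 2

lemma conj_z : (starRingEnd ℂ) z = -z := by
  unfold z; rw [map_mul, Complex.conj_I, map_ofNat]; ring
lemma conj_w : (starRingEnd ℂ) w = -w := by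
  unfold w; rw [map_mul, Complex.conj_I, map_ofNat]; ring

lemma cj_M : cj M = Mc := by
  unfold cj M Mc
  simp only [Polynomial.map_mul, Polynomial.map_pow, Polynomial.map_sub, map_X, map_C, conj_z,
    conj_w, C_neg, sub_neg_eq_add]

lemma cj_Mc : cj Mc = M := by
  rw [← cj_M, cj_cj]

lemma ι_Q : ι (Q ^ 2) = M * Mc := by
  have h1 : (C z : ℂ[X]) ^ 2 = -100 := by
    rw [← C_pow, z_sq, C_neg]; congr 1
  have h2 : (C w : ℂ[X]) ^ 2 = -121 := by
    rw [← C_pow, w_sq, C_neg]; congr 1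
  unfold ι Q M Mc
  simp only [Polynomial.map_mul, Polynomial.map_pow, Polynomial.map_add, map_X,
    Polynomial.map_ofNat]
  have e : (X - C z) ^ 2 * (X - C w) ^ 2 * ((X + C z) ^ 2 * (X + C w) ^ 2) =
      ((X ^ 2 - C z ^ 2) * (X ^ 2 - C w ^ 2) : ℂ[X]) ^ 2 := by ring
  rw [e, h1, h2]
  ring

lemma z_ne_w : z ≠ w := by
  unfold z w
  intro h
  have := congrArg Complex.im h
  norm_num at this

lemma coprime_aux {a b : ℂ} (h : a ≠ b) : IsCoprime (X - C a : ℂ[X]) (X - C b) := by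
  refine ⟨C (b - a)⁻¹, -C (b - a)⁻¹, ?_⟩
  have h1 : b - a ≠ 0 := sub_ne_zero.mpr h.symm
  have h2 : (C (b - a)⁻¹ : ℂ[X]) * (C b - C a) = 1 := by
    rw [← C_sub, ← C_mul, inv_mul_cancel₀ h1, C_1]
  linear_combination h2

/-- jets at `z` and `w` -/
lemma M_dvd {P : ℂ[X]} (h1 : P.eval z = 0) (h2 : (derivative P).eval z = 0)
    (h3 : P.eval w = 0) (h4 : (derivative P).eval w = 0) : M ∣ P := by
  have key : ∀ a : ℂ, P.eval a = 0 → (derivative P).eval a = 0 → (X - C a) ^ 2 ∣ P := by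
    intro a h1 h2
    obtain ⟨P1, hP1⟩ := dvd_iff_isRoot.mpr (show P.IsRoot a from h1)
    rw [hP1, derivative_mul] at h2
    have h5 : P1.eval a = 0 := by simpa using h2
    obtain ⟨P2, hP2⟩ := dvd_iff_isRoot.mpr (show P1.IsRoot a from h5)
    exact ⟨P2, by rw [hP1, hP2]; ring⟩
  have hco : IsCoprime ((X - C z : ℂ[X]) ^ 2) ((X - C w) ^ 2) := (coprime_aux z_ne_w).pow
  exact hco.mul_dvd (key z h1 h2) (key w h3 h4)

lemma M_Mc_coprime : IsCoprime M Mc := by
  have h0 : ∀ a b : ℂ, a ≠ b → IsCoprime ((X - C a : ℂ[X]) ^ 2) ((X - C b) ^ 2) :=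
    fun a b h => (coprime_aux h).pow
  have e1 : (X + C z : ℂ[X]) = X - C (-z) := by rw [C_neg]; ring
  have e2 : (X + C w : ℂ[X]) = X - C (-w) := by rw [C_neg]; ring
  unfold M Mc
  rw [e1, e2]
  have n1 : z ≠ -z := by
    unfold z; intro h
    have := congrArg Complex.im h
    norm_num at this
  have n2 : z ≠ -w := by
    unfold z w; intro h
    have := congrArg Complex.im h
    norm_num at this
  have n3 : w ≠ -z := by
    unfold z w; intro h
    have := congrArg Complex.im h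
    norm_num at this
  have n4 : w ≠ -w := by
    unfold w; intro h
    have := congrArg Complex.im h
    norm_num at this
  exact ((h0 _ _ n1).mul_right (h0 _ _ n2)).mul_left ((h0 _ _ n3).mul_right (h0 _ _ n4))

lemma Q2_dvd {R : ℝ[X]} (h : M ∣ ι R) : Q ^ 2 ∣ R := by
  have h2 : Mc ∣ ι R := by
    obtain ⟨S, hS⟩ := h
    refine ⟨cj S, ?_⟩
    rw [← cj_ι R, hS]
    unfold cj
    rw [Polynomial.map_mul]
    congr 1
    exact cj_M
  have h3 : ι (Q ^ 2) ∣ ι R := by
    rw [ι_Q]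
    exact M_Mc_coprime.mul_dvd h h2
  exact (map_dvd_map' _).mp h3

/-- the Hermite basis -/
noncomputable def L1 : ℂ[X] := -(X - C w) ^ 2 * (1 - C (2 * Complex.I) * (X - C z))
noncomputable def L2 : ℂ[X] := -(X - C z) * (X - C w) ^ 2
noncomputable def L3 : ℂ[X] := -(X - C z) ^ 2 * (1 + C (2 * Complex.I) * (X - C w))
noncomputable def L4 : ℂ[X] := -(X - C w) * (X - C z) ^ 2

noncomputable def herm (a b c d : ℂ) : ℂ[X] := C a * L1 + C b * L2 + C c * L3 + C d * L4

lemma herm_z (a b c d : ℂ) : (herm a b c d).eval z = a := by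
  unfold herm L1 L2 L3 L4
  simp only [eval_add, eval_mul, eval_C, eval_neg, eval_pow, eval_sub, eval_X, eval_one]
  unfold z w
  have h := Complex.I_sq
  linear_combination (-a) * h

lemma herm_w (a b c d : ℂ) : (herm a b c d).eval w = c := by
  unfold herm L1 L2 L3 L4
  simp only [eval_add, eval_mul, eval_C, eval_neg, eval_pow, eval_sub, eval_X, eval_one]
  unfold z w
  have h := Complex.I_sq
  linear_combination (-c) * h

lemma herm_z' (a b c d : ℂ) : (derivative (herm a b c d)).eval z = b := by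
  unfold herm L1 L2 L3 L4
  simp only [derivative_add, derivative_mul, derivative_C, derivative_neg, derivative_sub,
    derivative_X, derivative_one, derivative_X_sub_C_pow, zero_mul, zero_add,
    eval_add, eval_mul, eval_C, eval_neg, eval_pow, eval_sub, eval_X, eval_one, eval_zero]
  unfold z w
  have h := Complex.I_sq
  push_cast
  linear_combination (2 * a * Complex.I - b) * h

lemma herm_w' (a b c d : ℂ) : (derivative (herm a b c d)).eval w = d := by
  unfold herm L1 L2 L3 L4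
  simp only [derivative_add, derivative_mul, derivative_C, derivative_neg, derivative_sub,
    derivative_X, derivative_one, derivative_X_sub_C_pow, zero_mul, zero_add,
    eval_add, eval_mul, eval_C, eval_neg, eval_pow, eval_sub, eval_X, eval_one, eval_zero]
  unfold z w
  have h := Complex.I_sq
  push_cast
  linear_combination (-(2 * c * Complex.I) - d) * h

/-- a polynomial of degree at most `4` on the real line -/
lemma bound4 {P : ℂ[X]} (hP : P.natDegree ≤ 4) :
    ∃ K : ℝ, 0 ≤ K ∧ ∀ t : ℝ, ‖P.eval (t : ℂ)‖ ≤ K * (1 + t ^ 2) ^ 2 := by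
  refine ⟨∑ i ∈ Finset.range 5, ‖P.coeff i‖, Finset.sum_nonneg fun i _ => norm_nonneg _, ?_⟩
  intro t
  rw [P.eval_eq_sum_range' (show P.natDegree < 5 by omega), Finset.sum_mul]
  refine (norm_sum_le _ _).trans (Finset.sum_le_sum fun i hi => ?_)
  rw [norm_mul, norm_pow, Complex.norm_real]
  apply mul_le_mul_of_nonneg_left _ (norm_nonneg _)
  have hi' : i < 5 := Finset.mem_range.mp hi
  have h0 : 0 ≤ ‖t‖ := norm_nonneg t
  have h1 : ‖t‖ ^ 2 = t ^ 2 := by rw [Real.norm_eq_abs, sq_abs]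
  have h2 : ‖t‖ ≤ 1 + t ^ 2 := by nlinarith [sq_nonneg (‖t‖ - 1)]
  interval_cases i
  · rw [pow_zero]; nlinarith [sq_nonneg t]
  · rw [pow_one]; nlinarith [sq_nonneg t]
  · rw [h1]; nlinarith [sq_nonneg t]
  · have : ‖t‖ ^ 3 = t ^ 2 * ‖t‖ := by rw [← h1]; ring
    rw [this]
    nlinarith [sq_nonneg t, mul_le_mul_of_nonneg_left h2 (sq_nonneg t)]
  · have : ‖t‖ ^ 4 = t ^ 2 * t ^ 2 := by rw [← h1]; ring
    rw [this]
    nlinarith [sq_nonneg t]

/-- Bound for the Hermite interpolant. -/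
lemma herm_bound : ∃ K : ℝ, 0 ≤ K ∧ ∀ (ε : ℝ) (a b c d : ℂ), ‖a‖ ≤ ε → ‖b‖ ≤ ε → ‖c‖ ≤ ε →
    ‖d‖ ≤ ε → ∀ t : ℝ, ‖(herm a b c d).eval (t : ℂ)‖ ≤ ε * K * (1 + t ^ 2) ^ 2 := by
  obtain ⟨K1, h1, b1⟩ := bound4 (P := L1) (by unfold L1; compute_degree!)
  obtain ⟨K2, h2, b2⟩ := bound4 (P := L2) (by unfold L2; compute_degree!)
  obtain ⟨K3, h3, b3⟩ := bound4 (P := L3) (by unfold L3; compute_degree!)
  obtain ⟨K4, h4, b4⟩ := bound4 (P := L4) (by unfold L4; compute_degree!)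
  refine ⟨K1 + K2 + K3 + K4, by positivity, ?_⟩
  intro ε a b c d ha hb hc hd t
  have hε : 0 ≤ ε := (norm_nonneg a).trans ha
  unfold herm
  simp only [eval_add, eval_mul, eval_C]
  have e1 : ‖a * L1.eval (t : ℂ)‖ ≤ ε * (K1 * (1 + t ^ 2) ^ 2) := by
    rw [norm_mul]; exact mul_le_mul ha (b1 t) (norm_nonneg _) hε
  have e2 : ‖b * L2.eval (t : ℂ)‖ ≤ ε * (K2 * (1 + t ^ 2) ^ 2) := by
    rw [norm_mul]; exact mul_le_mul hb (b2 t) (norm_nonneg _) hε
  have e3 : ‖c * L3.eval (t : ℂ)‖ ≤ ε * (K3 * (1 + t ^ 2) ^ 2) := by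
    rw [norm_mul]; exact mul_le_mul hc (b3 t) (norm_nonneg _) hε
  have e4 : ‖d * L4.eval (t : ℂ)‖ ≤ ε * (K4 * (1 + t ^ 2) ^ 2) := by
    rw [norm_mul]; exact mul_le_mul hd (b4 t) (norm_nonneg _) hε
  calc _ ≤ ‖a * L1.eval (t : ℂ)‖ + ‖b * L2.eval (t : ℂ)‖ + ‖c * L3.eval (t : ℂ)‖ +
        ‖d * L4.eval (t : ℂ)‖ := norm_add₄_le
    _ ≤ _ := by linarith

/-- decay of jets of `ψ^m θ` -/
lemma jets_tendsto (ψ θ : ℂ[X]) (x : ℂ) (hx : ‖ψ.eval x‖ < 1) :
    Filter.Tendsto (fun m : ℕ => (ψ ^ m * θ).eval x) Filter.atTop (nhds 0) ∧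
    Filter.Tendsto (fun m : ℕ => (derivative (ψ ^ m * θ)).eval x) Filter.atTop (nhds 0) := by
  have h1 : Filter.Tendsto (fun m : ℕ => (ψ.eval x) ^ m) Filter.atTop (nhds 0) :=
    tendsto_pow_atTop_nhds_zero_of_norm_lt_one hx
  have h2 : Filter.Tendsto (fun m : ℕ => (m : ℂ) * (ψ.eval x) ^ m) Filter.atTop (nhds 0) := by
    rw [tendsto_zero_iff_norm_tendsto_zero]
    have := tendsto_self_mul_const_pow_of_lt_one (norm_nonneg (ψ.eval x)) hx
    refine this.congr fun m => ?_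
    rw [norm_mul, norm_pow, Complex.norm_natCast]
  refine ⟨?_, ?_⟩
  · have := h1.mul_const (θ.eval x)
    rw [zero_mul] at this
    refine this.congr fun m => ?_
    rw [eval_mul, eval_pow]
  · rw [← Filter.tendsto_add_atTop_iff_nat 1]
    have h3 : Filter.Tendsto (fun m : ℕ => ((m : ℂ) * (ψ.eval x) ^ m + (ψ.eval x) ^ m) *
        ((derivative ψ).eval x * θ.eval x) + (ψ.eval x) ^ m * (ψ.eval x * (derivative θ).eval x))
        Filter.atTop (nhds 0) := by
      have := (((h2.add h1).mul_const ((derivative ψ).eval x * θ.eval x)).add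
        (h1.mul_const (ψ.eval x * (derivative θ).eval x)))
      simpa using this
    refine h3.congr fun m => ?_
    rw [derivative_mul, derivative_pow]
    simp only [eval_add, eval_mul, eval_pow, eval_C, Nat.add_sub_cancel]
    push_cast
    ring

end Pool.Agent.Q81.StubInterp
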