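import Mathlib
import Pool.Agent.Q81.StubInterp
import Pool.Agent.Q81.StubFactor

set_option autoImplicit false

open Polynomial

namespace Pool.Agent.Q81.StubMain

open Pool.Agent.Q81.StubAlg Pool.Agent.Q81.StubInterp Pool.Agent.Q81.StubFactor

lemma M_eval_z : M.eval z = 0 := by unfold M; simp
lemma M_eval_w : M.eval w = 0 := by unfold M; simp

lemma aeval_Q2_dvd {R : ℝ[X]} (h : Q ^ 2 ∣ R) : aeval z R = 0 ∧ aeval w R = 0 := by
  obtain ⟨S, rfl⟩ := h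
  refine ⟨?_, ?_⟩
  · rw [map_mul, map_pow, aeval_Q_z]; ring
  · rw [map_mul, map_pow, aeval_Q_w]; ring

lemma ι_sub (a b : ℝ[X]) : ι (a - b) = ι a - ι b := Polynomial.map_sub _
lemma ι_mul (a b : ℝ[X]) : ι (a * b) = ι a * ι b := Polynomial.map_mul _
lemma ι_pow (a : ℝ[X]) (n : ℕ) : ι (a ^ n) = ι a ^ n := Polynomial.map_pow _ n

lemma exists_nu : ∃ ν : ℂ[X], M ∣ ν * Mc - 1 := by
  obtain ⟨a, b, h⟩ := M_Mc_coprime
  exact ⟨b, -a, by linear_combination h⟩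

lemma M_dvd_cj {P : ℂ[X]} (h : Mc ∣ P) : M ∣ cj P := by
  rw [← cj_Mc]
  exact Polynomial.map_dvd _ h

/-- existence of a polynomial square root of `q` modulo `Q^2` -/
lemma exists_r0 {q h : ℝ[X]} (hq : aeval z q ≠ 0) (hz : aeval z h ≠ 0) (hw : aeval w h ≠ 0)
    (heq : aeval w h ^ 2 * aeval w q = aeval z h ^ 2 * aeval z q) :
    ∃ r0 : ℝ[X], Q ^ 2 ∣ r0 ^ 2 - q ∧ aeval w h * aeval w r0 = aeval z h * aeval z r0 := by
  obtain ⟨ζ, hζ⟩ := IsAlgClosed.exists_pow_nat_eq (aeval z q) (n := 2) (by norm_num)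
  have hζ0 : ζ ≠ 0 := by
    rintro rfl
    apply hq
    rw [← hζ]; ring
  set ω := ζ * aeval z h / aeval w h with hω
  have hω0 : ω ≠ 0 := div_ne_zero (mul_ne_zero hζ0 hz) hw
  have hωh : aeval w h * ω = aeval z h * ζ := by
    rw [hω]; field_simp
  have hω2 : ω ^ 2 = aeval w q := by
    have h1 : aeval w h ^ 2 * ω ^ 2 = aeval w h ^ 2 * aeval w q := by
      rw [heq, ← hζ]
      linear_combination (aeval w h * ω + aeval z h * ζ) * hωh
    exact mul_left_cancel₀ (pow_ne_zero 2 hw) h1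
  set G := herm ζ ((derivative (ι q)).eval z / (2 * ζ)) ω ((derivative (ι q)).eval w / (2 * ω))
    with hG
  have hG1 : M ∣ G ^ 2 - ι q := by
    apply M_dvd
    · rw [eval_sub, eval_pow, hG, herm_z, hζ, aeval_eq, sub_self]
    · rw [derivative_sub, derivative_pow]
      simp only [eval_sub, eval_mul, eval_C, Nat.reduceSub, pow_one]
      rw [hG, herm_z, herm_z']
      push_cast
      field_simp
      ring
    · rw [eval_sub, eval_pow, hG, herm_w, hω2, aeval_eq, sub_self]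
    · rw [derivative_sub, derivative_pow]
      simp only [eval_sub, eval_mul, eval_C, Nat.reduceSub, pow_one]
      rw [hG, herm_w, herm_w']
      push_cast
      field_simp
      ring
  obtain ⟨ν, hν⟩ := exists_nu
  obtain ⟨R, hR⟩ := exists_real (G * ν * Mc)
  have h1 : M ∣ ι R - G := by
    rw [hR]
    have e : G * ν * Mc + cj (G * ν * Mc) - G = G * (ν * Mc - 1) + cj (G * ν * Mc) := by ring
    rw [e]
    exact dvd_add (hν.mul_left _) (M_dvd_cj (Dvd.intro_left _ rfl))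
  refine ⟨R, ?_, ?_⟩
  · apply Q2_dvd
    rw [ι_sub, ι_pow]
    have e : ι R ^ 2 - ι q = (ι R - G) * (ι R + G) + (G ^ 2 - ι q) := by ring
    rw [e]
    exact dvd_add (h1.mul_right _) hG1
  · obtain ⟨S, hS⟩ := h1
    have ez : aeval z R = ζ := by
      rw [aeval_eq]
      have := congrArg (Polynomial.eval z) hS
      rw [eval_sub, eval_mul, M_eval_z, zero_mul, hG, herm_z] at this
      exact sub_eq_zero.mp this
    have ew : aeval w R = ω := by
      rw [aeval_eq]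
      have := congrArg (Polynomial.eval w) hS
      rw [eval_sub, eval_mul, M_eval_w, zero_mul, hG, herm_w] at this
      exact sub_eq_zero.mp this
    rw [ez, ew, hωh]

lemma coprime_of_eval {P : ℂ[X]} {a : ℂ} (h : P.eval a ≠ 0) : IsCoprime P (X - C a) := by
  obtain ⟨S, hS⟩ := X_sub_C_dvd_sub_C_eval (a := a) (p := P)
  refine ⟨C (P.eval a)⁻¹, -C (P.eval a)⁻¹ * S, ?_⟩
  have h2 : (C (P.eval a)⁻¹ : ℂ[X]) * C (P.eval a) = 1 := by
    rw [← C_mul, inv_mul_cancel₀ h, C_1]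
  linear_combination (C (P.eval a)⁻¹ : ℂ[X]) * hS + h2

lemma cj_eval (P : ℂ[X]) (t : ℝ) : (cj P).eval (t : ℂ) = (starRingEnd ℂ) (P.eval (t : ℂ)) := by
  have h := Polynomial.eval₂_at_apply (starRingEnd ℂ) (p := P) (t : ℂ)
  rw [Complex.conj_ofReal] at h
  unfold cj
  rw [eval_map, h]

lemma ι_eval (R : ℝ[X]) (t : ℝ) : (ι R).eval (t : ℂ) = ((R.eval t : ℝ) : ℂ) := by
  unfold ι
  rw [eval_map]
  exact Polynomial.eval₂_at_apply (algebraMap ℝ ℂ) t

lemma final_ineq {x n1 n2 n3 re qt : ℝ} {m : ℕ} (h1 : 0 ≤ n1) (h2 : 0 ≤ n2)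
    (hq : qt = n3 ^ 2) (hb : 2 * (n1 * n2) ≤ qt ^ 4) (hx : x = 2 * re)
    (hre : re ^ 2 ≤ (n1 * n2 * n3 ^ (m - 8)) ^ 2) (hm : 8 ≤ m) : x ^ 2 ≤ qt ^ m := by
  have hq0 : 0 ≤ qt := by rw [hq]; positivity
  have hb2 : (2 * (n1 * n2)) ^ 2 ≤ (qt ^ 4) ^ 2 := pow_le_pow_left₀ (by positivity) hb 2
  have hqm : (qt ^ 4) ^ 2 * qt ^ (m - 8) = qt ^ m := by
    rw [← pow_mul, ← pow_add]; congr 1; omega
  have e : 4 * (n1 * n2 * n3 ^ (m - 8)) ^ 2 = (2 * (n1 * n2)) ^ 2 * qt ^ (m - 8) := by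
    rw [hq]; ring
  rw [← hqm, hx]
  calc (2 * re) ^ 2 = 4 * re ^ 2 := by ring
    _ ≤ 4 * (n1 * n2 * n3 ^ (m - 8)) ^ 2 := by linarith
    _ = _ := e
    _ ≤ _ := mul_le_mul_of_nonneg_right hb2 (by positivity)

lemma prod_ineq {n1 n2 ε K K2 c s qt : ℝ} (hs : 0 ≤ s) (hK : 0 ≤ K) (hε : 0 ≤ ε) (hc : 0 ≤ c)
    (h2 : 0 ≤ n2)
    (b1 : n1 ≤ ε * K * s ^ 2) (b2 : n2 ≤ K2 * s ^ 2) (hεle : 2 * (ε * K * K2) ≤ c ^ 4)
    (hlow : c * s ≤ qt) : 2 * (n1 * n2) ≤ qt ^ 4 := by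
  have b3 : n1 * n2 ≤ (ε * K * s ^ 2) * (K2 * s ^ 2) := mul_le_mul b1 b2 h2 (by positivity)
  have b4 : (c * s) ^ 4 ≤ qt ^ 4 := pow_le_pow_left₀ (by positivity) hlow 4
  have b5 : 0 ≤ s ^ 4 := by positivity
  calc 2 * (n1 * n2) ≤ 2 * ((ε * K * s ^ 2) * (K2 * s ^ 2)) := by linarith
    _ = (2 * (ε * K * K2)) * s ^ 4 := by ring
    _ ≤ c ^ 4 * s ^ 4 := mul_le_mul_of_nonneg_right hεle b5
    _ = (c * s) ^ 4 := by ring
    _ ≤ _ := b4

/-- The main interpolation result. -/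
lemma main_interp {q : ℝ[X]} {p : ℂ[X]} (hqp : ι q = p * cj p) {c : ℝ} (hc : 0 < c)
    (hlow : ∀ t : ℝ, c * (1 + t ^ 2) ≤ q.eval t)
    (hz : ‖(cj p).eval z‖ < ‖p.eval z‖) (hw : ‖(cj p).eval w‖ < ‖p.eval w‖) {r0 : ℝ[X]}
    (hr0 : Q ^ 2 ∣ r0 ^ 2 - q) :
    ∃ (m : ℕ) (r : ℝ[X]), Odd m ∧ Q ^ 2 ∣ r - r0 ^ m ∧ ∀ t : ℝ, (r.eval t) ^ 2 ≤ (q.eval t) ^ m := by
  have hpz : p.eval z ≠ 0 := by
    intro h; rw [h, norm_zero] at hz; exact absurd hz (not_lt.mpr (norm_nonneg _))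
  have hpw : p.eval w ≠ 0 := by
    intro h; rw [h, norm_zero] at hw; exact absurd hw (not_lt.mpr (norm_nonneg _))
  have hco : IsCoprime p M := by
    unfold M
    exact ((coprime_of_eval hpz).pow_right).mul_right ((coprime_of_eval hpw).pow_right)
  obtain ⟨κ, lam, hκ⟩ := hco
  have hκM : M ∣ κ * p - 1 := ⟨-lam, by linear_combination hκ⟩
  obtain ⟨ν, hν⟩ := exists_nu
  obtain ⟨hr0z, hr0w⟩ := aeval_Q2_dvd hr0
  set ψ := ι r0 * κ with hψ
  set θ := p ^ 8 * ν with hθ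
  -- the value of `ψ`
  have hval : ∀ x : ℂ, M.eval x = 0 → aeval x (r0 ^ 2 - q) = 0 →
      ‖(cj p).eval x‖ < ‖p.eval x‖ → ‖ψ.eval x‖ < 1 := by
    intro x hMx hx hlt
    have e1 : (ι r0).eval x ^ 2 = p.eval x * (cj p).eval x := by
      rw [map_sub, map_pow, aeval_eq, aeval_eq, hqp, eval_mul] at hx
      exact sub_eq_zero.mp hx
    have e2 : κ.eval x * p.eval x = 1 := by
      have := congrArg (Polynomial.eval x) hκ
      rwa [eval_add, eval_mul, eval_mul, hMx, mul_zero, add_zero, eval_one] at this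
    have e3 : ψ.eval x ^ 2 * p.eval x = (cj p).eval x := by
      rw [hψ, eval_mul]
      linear_combination (κ.eval x ^ 2 * p.eval x) * e1 +
        ((cj p).eval x * (κ.eval x * p.eval x + 1)) * e2
    have e4 : ‖ψ.eval x‖ ^ 2 * ‖p.eval x‖ < 1 * ‖p.eval x‖ := by
      rw [← norm_pow, ← norm_mul, e3, one_mul]; exact hlt
    have hp0 : 0 < ‖p.eval x‖ := (norm_nonneg _).trans_lt hlt
    have e5 := lt_of_mul_lt_mul_right e4 hp0.le
    exact (sq_lt_one_iff₀ (norm_nonneg _)).mp e5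
  have hψz := hval z M_eval_z hr0z hz
  have hψw := hval w M_eval_w hr0w hw
  obtain ⟨K, hK, hherm⟩ := herm_bound
  obtain ⟨K2, hK2, hMc⟩ := bound4 (P := Mc) (by unfold Mc; compute_degree!)
  set ε := c ^ 4 / (2 * (K * K2) + 1) with hε
  have hden : 0 < 2 * (K * K2) + 1 := by positivity
  have hεpos : 0 < ε := by positivity
  have hεle : 2 * (ε * K * K2) ≤ c ^ 4 := by
    have h1 : ε * (2 * (K * K2) + 1) = c ^ 4 := by rw [hε]; field_simp
    nlinarith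
  obtain ⟨tz, tz'⟩ := jets_tendsto ψ θ z hψz
  obtain ⟨tw, tw'⟩ := jets_tendsto ψ θ w hψw
  have ev : ∀ {g : ℕ → ℂ}, Filter.Tendsto g Filter.atTop (nhds 0) →
      ∀ᶠ m in Filter.atTop, ‖g m‖ ≤ ε := by
    intro g hg
    have := (Metric.tendsto_atTop.mp hg) ε hεpos
    obtain ⟨N, hN⟩ := this
    filter_upwards [Filter.eventually_ge_atTop N] with m hm
    have := hN m hm
    rw [dist_zero_right] at this
    exact this.le
  obtain ⟨N, hN⟩ := Filter.eventually_atTop.mp (((ev tz).and (ev tz')).and ((ev tw).and (ev tw')))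
  set m := 2 * (N + 8) + 1 with hm
  obtain ⟨⟨j1, j2⟩, j3, j4⟩ := hN m (by omega)
  set g := ψ ^ m * θ with hg
  set A := herm (g.eval z) ((derivative g).eval z) (g.eval w) ((derivative g).eval w) with hA
  have hAg : M ∣ A - g := by
    apply M_dvd
    · rw [eval_sub, hA, herm_z, sub_self]
    · rw [derivative_sub, eval_sub, hA, herm_z', sub_self]
    · rw [eval_sub, hA, herm_w, sub_self]
    · rw [derivative_sub, eval_sub, hA, herm_w', sub_self]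
  set P := A * Mc * p ^ (m - 8) with hP
  obtain ⟨r, hr⟩ := exists_real P
  refine ⟨m, r, ⟨N + 8, hm⟩, ?_, ?_⟩
  · apply Q2_dvd
    rw [ι_sub, ι_pow, hr]
    have hpp : p ^ 8 * p ^ (m - 8) = p ^ m := by
      rw [← pow_add]; congr 1; omega
    have e1 : g * Mc * p ^ (m - 8) = ι r0 ^ m * ((κ * p) ^ m * (ν * Mc)) := by
      rw [hg, hψ, hθ, mul_pow, mul_pow, ← hpp]
      ring
    have e2 : P + cj P - ι r0 ^ m = (A - g) * (Mc * p ^ (m - 8)) + cj P +
        ι r0 ^ m * (((κ * p) ^ m - 1) * (ν * Mc) + (ν * Mc - 1)) := by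
      rw [hP]
      linear_combination e1
    rw [e2]
    refine dvd_add (dvd_add (hAg.mul_right _) (M_dvd_cj ?_)) (Dvd.dvd.mul_left (dvd_add ?_ hν) _)
    · rw [hP]
      exact ⟨A * p ^ (m - 8), by ring⟩
    · have h3 : (κ * p - 1) ∣ (κ * p) ^ m - 1 := by
        have := sub_dvd_pow_sub_pow (κ * p) 1 m
        rwa [one_pow] at this
      exact (hκM.trans h3).mul_right _
  · intro t
    have hq0 : 0 < q.eval t := lt_of_lt_of_le (by positivity) (hlow t)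
    have hqt : q.eval t = ‖p.eval (t : ℂ)‖ ^ 2 := by
      have h1 := congrArg (Polynomial.eval (t : ℂ)) hqp
      rw [ι_eval, eval_mul, cj_eval, Complex.mul_conj] at h1
      rw [Complex.sq_norm]
      exact_mod_cast h1
    have hrt : r.eval t = 2 * (P.eval (t : ℂ)).re := by
      have h1 := congrArg (Polynomial.eval (t : ℂ)) hr
      rw [ι_eval, eval_add, cj_eval, Complex.add_conj] at h1
      exact_mod_cast h1
    have hre : (P.eval (t : ℂ)).re ^ 2 ≤ ‖P.eval (t : ℂ)‖ ^ 2 := by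
      rw [← sq_abs]
      exact pow_le_pow_left₀ (abs_nonneg _) (Complex.abs_re_le_norm _) 2
    have hPn : ‖P.eval (t : ℂ)‖ = ‖A.eval (t : ℂ)‖ * ‖Mc.eval (t : ℂ)‖ *
        ‖p.eval (t : ℂ)‖ ^ (m - 8) := by
      rw [hP, eval_mul, eval_mul, eval_pow, norm_mul, norm_mul, norm_pow]
    have hb : 2 * (‖A.eval (t : ℂ)‖ * ‖Mc.eval (t : ℂ)‖) ≤ (q.eval t) ^ 4 :=
      prod_ineq (by positivity) hK hεpos.le hc.le (norm_nonneg _)
        (hherm ε _ _ _ _ j1 j2 j3 j4 t) (hMc t) hεle (hlow t)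
    rw [hPn] at hre
    exact final_ineq (norm_nonneg _) (norm_nonneg _) hqt hb hrt hre (by omega)

end Pool.Agent.Q81.StubMain
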