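import Mathlib
import Pool.Agent.Q81.StubMain

set_option autoImplicit false

open Polynomial

namespace Pool.Agent.Q81.StubFour

open Pool.Agent.Q81.StubAlg Pool.Agent.Q81.StubInterp Pool.Agent.Q81.StubFactor
open Pool.Agent.Q81.StubMain

/-- the cone condition for products -/
lemma cone (l : List ℝ) (hl : l.length ≤ 10) :
    0 < (aeval w (realRooted l) * (starRingEnd ℂ) (aeval z (realRooted l))).re ∧
    |(aeval w (realRooted l) * (starRingEnd ℂ) (aeval z (realRooted l))).im| ≤
      (l.length : ℝ) / 10 *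
        (aeval w (realRooted l) * (starRingEnd ℂ) (aeval z (realRooted l))).re := by
  induction l with
  | nil => rw [realRooted_nil]; simp
  | cons a l ih =>
    rw [List.length_cons] at hl
    obtain ⟨h1, h2⟩ := ih (by omega)
    have e : aeval w (realRooted (a :: l)) * (starRingEnd ℂ) (aeval z (realRooted (a :: l))) =
        (aeval w (realRooted l) * (starRingEnd ℂ) (aeval z (realRooted l))) *
          (⟨110 + a ^ 2, -a⟩ : ℂ) := by
      have e1 : (w - (a : ℂ)) * (-z - (a : ℂ)) = (⟨110 + a ^ 2, -a⟩ : ℂ) := by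
        unfold w z
        apply Complex.ext
        · simp [pow_two]; ring
        · simp; ring
      rw [realRooted_cons, map_mul, map_mul, map_mul, ← e1, map_sub, map_sub, aeval_X, aeval_X,
        aeval_C, aeval_C, map_sub, conj_z]
      have e2 : (starRingEnd ℂ) (algebraMap ℝ ℂ a) = (a : ℂ) := Complex.conj_ofReal a
      rw [e2]
      change (w - (a : ℂ)) * _ * _ = _
      ring
    rw [e]
    generalize aeval w (realRooted l) * (starRingEnd ℂ) (aeval z (realRooted l)) = ξ at h1 h2
    rw [Complex.mul_re, Complex.mul_im]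
    simp only
    set x := ξ.re
    set y := ξ.im
    set k : ℝ := (l.length : ℝ) with hk
    have hk0 : 0 ≤ k := Nat.cast_nonneg _
    have hk9 : k ≤ 9 := by
      have : l.length ≤ 9 := by omega
      rw [hk]; exact_mod_cast this
    have hu : 0 < 110 + a ^ 2 := by positivity
    have ha : |a| ≤ (110 + a ^ 2) / 20 := by
      rw [← sq_abs a]
      nlinarith [sq_nonneg (|a| - 10)]
    have hya : |y * a| ≤ k / 10 * x * ((110 + a ^ 2) / 20) := by
      rw [abs_mul]
      exact mul_le_mul h2 ha (abs_nonneg _) (by positivity)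
    have hya1 := abs_le.mp hya
    have hxu : 0 < x * (110 + a ^ 2) := by positivity
    have hRe : x * (110 + a ^ 2) * (1 - k / 200) ≤ x * (110 + a ^ 2) - y * -a := by
      nlinarith [hya1.1, hya1.2]
    have hRe0 : 0 < x * (110 + a ^ 2) - y * -a := by
      have : 0 < x * (110 + a ^ 2) * (1 - k / 200) := by
        apply mul_pos hxu; linarith
      linarith
    refine ⟨hRe0, ?_⟩
    have hxa : |x * -a| ≤ x * ((110 + a ^ 2) / 20) := by
      rw [abs_mul, abs_neg, abs_of_pos h1]
      exact mul_le_mul_of_nonneg_left ha h1.le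
    have hyu : |y * (110 + a ^ 2)| ≤ k / 10 * x * (110 + a ^ 2) := by
      rw [abs_mul, abs_of_pos hu]
      exact mul_le_mul_of_nonneg_right h2 hu.le
    have hIm : |x * -a + y * (110 + a ^ 2)| ≤ x * (110 + a ^ 2) * (1 / 20 + k / 10) := by
      refine (abs_add_le _ _).trans ?_
      calc _ ≤ x * ((110 + a ^ 2) / 20) + k / 10 * x * (110 + a ^ 2) := add_le_add hxa hyu
        _ = _ := by ring
    have hcast : ((List.length (a :: l) : ℕ) : ℝ) = k + 1 := by
      rw [List.length_cons]; push_cast; rfl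
    rw [hcast]
    refine hIm.trans ?_
    have h5 : x * (110 + a ^ 2) * (1 / 20 + k / 10) ≤
        (k + 1) / 10 * (x * (110 + a ^ 2) * (1 - k / 200)) := by
      have : (1 / 20 + k / 10) ≤ (k + 1) / 10 * (1 - k / 200) := by nlinarith
      calc _ ≤ x * (110 + a ^ 2) * ((k + 1) / 10 * (1 - k / 200)) :=
            mul_le_mul_of_nonneg_left this hxu.le
        _ = _ := by ring
    exact h5.trans (mul_le_mul_of_nonneg_left hRe (by positivity))

/-- a real rooted polynomial of degree at most `10` cannot change its sign from `z` to `w` -/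
lemma no_sign_change (l : List ℝ) (hl : l.length ≤ 10) :
    aeval w (realRooted l) ≠ - aeval z (realRooted l) := by
  intro h
  have h1 := (cone l hl).1
  rw [h, neg_mul, Complex.mul_conj, Complex.neg_re, Complex.ofReal_re] at h1
  have := Complex.normSq_nonneg (aeval z (realRooted l))
  linarith

lemma realRooted_aeval_ne (l : List ℝ) {x : ℂ} (hx : x.im ≠ 0) : aeval x (realRooted l) ≠ 0 := by
  induction l with
  | nil => rw [realRooted_nil]; simp
  | cons a l ih =>
    rw [realRooted_cons, map_mul]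
    apply mul_ne_zero _ ih
    rw [map_sub, aeval_X, aeval_C]
    intro h
    apply hx
    have : x = (a : ℂ) := sub_eq_zero.mp h
    rw [this, Complex.ofReal_im]

/-- the factor with roots in the lower half plane -/
noncomputable def low (c : ℝ) (l : List (ℝ × ℝ)) : ℂ[X] :=
  C ((Real.sqrt c : ℝ) : ℂ) * (l.map fun x => X - C (⟨x.1, -x.2⟩ : ℂ)).prod

lemma low_cons (c : ℝ) (x : ℝ × ℝ) (l : List (ℝ × ℝ)) :
    low c (x :: l) = (X - C (⟨x.1, -x.2⟩ : ℂ)) * low c l := by
  unfold low
  rw [List.map_cons, List.prod_cons]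
  ring

lemma cj_low_cons (c : ℝ) (x : ℝ × ℝ) (l : List (ℝ × ℝ)) :
    cj (low c (x :: l)) = (X - C (⟨x.1, x.2⟩ : ℂ)) * cj (low c l) := by
  rw [low_cons]
  unfold cj
  rw [Polynomial.map_mul, Polynomial.map_sub, map_X, map_C]
  congr 4
  apply Complex.ext <;> simp

lemma ι_quads (c : ℝ) (hc : 0 < c) (l : List (ℝ × ℝ)) :
    ι (C c * quads l) = low c l * cj (low c l) := by
  induction l with
  | nil =>
    unfold low cj ι
    rw [quads_nil]
    simp only [mul_one, List.map_nil, List.prod_nil, map_C, Complex.conj_ofReal]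
    rw [← C_mul, ← Complex.ofReal_mul, Real.mul_self_sqrt hc.le]
    rfl
  | cons x l ih =>
    rw [cj_low_cons, low_cons, quads_cons]
    have e1 : ι (C c * (((X - C x.1) ^ 2 + C (x.2 ^ 2)) * quads l)) =
        ι ((X - C x.1) ^ 2 + C (x.2 ^ 2)) * ι (C c * quads l) := by
      rw [← ι_mul]; congr 1; ring
    rw [e1, ih]
    have e2 : ι ((X - C x.1) ^ 2 + C (x.2 ^ 2)) =
        (X - C (⟨x.1, -x.2⟩ : ℂ)) * (X - C (⟨x.1, x.2⟩ : ℂ)) := by
      have h1 : (⟨x.1, -x.2⟩ : ℂ) + ⟨x.1, x.2⟩ = 2 * (x.1 : ℂ) := by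
        apply Complex.ext <;> simp; ring
      have h2 : (⟨x.1, -x.2⟩ : ℂ) * ⟨x.1, x.2⟩ = (x.1 : ℂ) ^ 2 + (x.2 : ℂ) ^ 2 := by
        apply Complex.ext <;> simp [pow_two]; ring
      have h3 : (C (⟨x.1, -x.2⟩ : ℂ) : ℂ[X]) + C (⟨x.1, x.2⟩ : ℂ) = 2 * C (x.1 : ℂ) := by
        rw [← C_add, h1, C_mul]
        congr 1
      have h4 : (C (⟨x.1, -x.2⟩ : ℂ) : ℂ[X]) * C (⟨x.1, x.2⟩ : ℂ) =
          C (x.1 : ℂ) ^ 2 + C (x.2 : ℂ) ^ 2 := by
        rw [← C_mul, h2, C_add, C_pow, C_pow]
      unfold ι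
      simp only [Polynomial.map_add, Polynomial.map_pow, Polynomial.map_sub, map_X, map_C]
      change (X - C ((x.1 : ℝ) : ℂ)) ^ 2 + C ((x.2 ^ 2 : ℝ) : ℂ) = _
      rw [Complex.ofReal_pow, C_pow]
      linear_combination X * h3 - h4
    rw [e2]
    ring

lemma low_half_plane (c : ℝ) (hc : 0 < c) (l : List (ℝ × ℝ)) (hl : ∀ x ∈ l, 0 < x.2) {ξ : ℂ}
    (hξ : 0 < ξ.im) :
    0 < ‖(low c l).eval ξ‖ ∧ ‖(cj (low c l)).eval ξ‖ ≤ ‖(low c l).eval ξ‖ ∧
    (l ≠ [] → ‖(cj (low c l)).eval ξ‖ < ‖(low c l).eval ξ‖) := by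
  induction l with
  | nil =>
    have hs : 0 < Real.sqrt c := Real.sqrt_pos.mpr hc
    unfold low cj
    simp only [List.map_nil, List.prod_nil, mul_one, map_C, Complex.conj_ofReal, eval_C]
    refine ⟨?_, le_refl _, fun h => absurd rfl h⟩
    rw [Complex.norm_real, Real.norm_eq_abs, abs_of_pos hs]
    exact hs
  | cons x l ih =>
    obtain ⟨h1, h2, _⟩ := ih fun y hy => hl y (List.mem_cons_of_mem x hy)
    have hx := hl x List.mem_cons_self
    have hlt : ‖ξ - (⟨x.1, x.2⟩ : ℂ)‖ < ‖ξ - (⟨x.1, -x.2⟩ : ℂ)‖ := by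
      rw [← sq_lt_sq₀ (norm_nonneg _) (norm_nonneg _), Complex.sq_norm, Complex.sq_norm,
        Complex.normSq_apply, Complex.normSq_apply]
      simp only [Complex.sub_re, Complex.sub_im]
      nlinarith [mul_pos hξ hx]
    have hpos : 0 < ‖ξ - (⟨x.1, -x.2⟩ : ℂ)‖ := (norm_nonneg _).trans_lt hlt
    have hmain : ‖(cj (low c (x :: l))).eval ξ‖ < ‖(low c (x :: l)).eval ξ‖ := by
      rw [cj_low_cons, low_cons, eval_mul, eval_mul, norm_mul, norm_mul, eval_sub, eval_sub,
        eval_X, eval_C, eval_C]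
      exact mul_lt_mul_of_lt_of_le_of_nonneg_of_pos hlt h2 (norm_nonneg _) h1
    refine ⟨?_, hmain.le, fun _ => hmain⟩
    rw [low_cons, eval_mul, norm_mul, eval_sub, eval_X, eval_C]
    exact mul_pos hpos h1

lemma Q_pos (t : ℝ) : 0 < Q.eval t := by
  unfold Q
  simp only [eval_mul, eval_add, eval_pow, eval_X, eval_ofNat]
  positivity

/-- **No stubborn forms of degree four**: algebraic part. -/
theorem four {f : ℝ[X]} (hf0 : f ≠ 0) (hf : ∀ t, 0 ≤ f.eval t) (hdeg : f.natDegree ≤ 20)
    (hglue : aeval w f = aeval z f) :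
    ∃ m : ℕ, Odd m ∧ ∃ g1 g2 g3 : ℝ[X], f ^ m = g1 ^ 2 + g2 ^ 2 + g3 ^ 2 ∧
      aeval w g1 = aeval z g1 ∧ aeval w g2 = aeval z g2 ∧ aeval w g3 = aeval z g3 := by
  obtain ⟨l, q, hfq, hq⟩ := factor_real hf0 hf
  obtain ⟨c, l', hc, hl', hq2⟩ := factor_pos hq
  have hH0 : realRooted l ≠ 0 := realRooted_ne_zero l
  have hHz : aeval z (realRooted l) ≠ 0 := realRooted_aeval_ne l (by unfold z; simp)
  have hHw : aeval w (realRooted l) ≠ 0 := realRooted_aeval_ne l (by unfold w; simp)
  have hglue2 : aeval w (realRooted l) ^ 2 * aeval w q = aeval z (realRooted l) ^ 2 * aeval z q := by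
    rw [hfq] at hglue
    simpa only [map_mul, map_pow] using hglue
  by_cases hnil : l' = []
  · -- all zeros are real
    rw [hnil, quads_nil, mul_one] at hq2
    have hlen : l.length ≤ 10 := by
      have h1 : f.natDegree = 2 * l.length := by
        rw [hfq, hq2, natDegree_mul_C hc.ne', natDegree_pow, realRooted_natDegree]
      omega
    have hc0 : (algebraMap ℝ ℂ c) ≠ 0 := by
      intro h
      exact hc.ne' ((map_eq_zero (algebraMap ℝ ℂ)).mp h)
    have hsq : aeval w (realRooted l) ^ 2 = aeval z (realRooted l) ^ 2 := by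
      rw [hq2, aeval_C, aeval_C] at hglue2
      exact mul_right_cancel₀ hc0 hglue2
    have heq : aeval w (realRooted l) = aeval z (realRooted l) := by
      rcases sq_eq_sq_iff_eq_or_eq_neg.mp hsq with h | h
      · exact h
      · exact absurd h (no_sign_change l hlen)
    refine ⟨1, odd_one, C (Real.sqrt c) * realRooted l, 0, 0, ?_, ?_, by rw [map_zero, map_zero],
      by rw [map_zero, map_zero]⟩
    · rw [pow_one, hfq, hq2, mul_pow, ← C_pow, Real.sq_sqrt hc.le]
      ring
    · rw [map_mul, map_mul, heq, aeval_C, aeval_C]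
  · -- a positive factor
    by_cases hqz : aeval z q = 0
    · have hqw : aeval w q = 0 := by
        rw [hqz, mul_zero] at hglue2
        rcases mul_eq_zero.mp hglue2 with h | h
        · exact absurd (pow_eq_zero_iff (by norm_num) |>.mp h) hHw
        · exact h
      obtain ⟨q', hq'⟩ := Q_dvd hqz hqw
      have hq'pos : ∀ t, 0 < q'.eval t := by
        intro t
        have h1 := hq t
        rw [hq', eval_mul] at h1
        exact (pos_iff_pos_of_mul_pos h1).mp (Q_pos t)
      obtain ⟨u, v, huv⟩ := two_sq (f := Q * q' ^ 3) (fun t => by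
        rw [eval_mul, eval_pow]
        have := Q_pos t
        have := hq'pos t
        positivity)
      refine ⟨3, by decide, realRooted l ^ 3 * Q * u, realRooted l ^ 3 * Q * v, 0, ?_, ?_, ?_,
        by rw [map_zero, map_zero]⟩
      · rw [hfq, hq']
        linear_combination (realRooted l ^ 6 * Q ^ 2) * huv
      · rw [map_mul, map_mul, map_mul, map_mul, aeval_Q_z, aeval_Q_w]; ring
      · rw [map_mul, map_mul, map_mul, map_mul, aeval_Q_z, aeval_Q_w]; ring
    · obtain ⟨r0, hr0, hr0h⟩ := exists_r0 hqz hHz hHw hglue2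
      obtain ⟨c', hc', hlow⟩ := quads_lower l' hl' hnil
      obtain ⟨m, r, hm, hr, hrb⟩ := main_interp (q := q) (p := low c l')
        (by rw [hq2]; exact ι_quads c hc l') (c := c * c') (by positivity) (by
          intro t
          rw [hq2, eval_mul, eval_C, mul_assoc]
          exact mul_le_mul_of_nonneg_left (hlow t) hc.le)
        ((low_half_plane c hc l' hl' (by unfold z; simp)).2.2 hnil)
        ((low_half_plane c hc l' hl' (by unfold w; simp)).2.2 hnil) hr0
      have hdvd : Q ^ 2 ∣ q ^ m - r ^ 2 := by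
        have h1 : Q ^ 2 ∣ r ^ 2 - (r0 ^ m) ^ 2 := by
          have : r ^ 2 - (r0 ^ m) ^ 2 = (r - r0 ^ m) * (r + r0 ^ m) := by ring
          rw [this]
          exact hr.mul_right _
        have h2 : Q ^ 2 ∣ (r0 ^ 2) ^ m - q ^ m := hr0.trans (sub_dvd_pow_sub_pow _ _ m)
        have h3 : q ^ m - r ^ 2 = -((r ^ 2 - (r0 ^ m) ^ 2) + ((r0 ^ 2) ^ m - q ^ m)) := by
          rw [← pow_mul, ← pow_mul, mul_comm m 2]; ring
        rw [h3]
        exact (dvd_neg).mpr (dvd_add h1 h2)
      obtain ⟨S, hS⟩ := hdvd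
      have hSpos : ∀ t, 0 ≤ S.eval t := by
        intro t
        have h1 := congrArg (Polynomial.eval t) hS
        rw [eval_sub, eval_mul, eval_pow, eval_pow, eval_pow] at h1
        have h2 := hrb t
        have h3 := Q_pos t
        have h4 : 0 ≤ Q.eval t ^ 2 * S.eval t := by linarith
        exact nonneg_of_mul_nonneg_right h4 (by positivity)
      obtain ⟨u, v, huv⟩ := two_sq hSpos
      obtain ⟨e1, e2⟩ := aeval_Q2_dvd hr
      rw [map_sub, map_pow] at e1 e2
      refine ⟨m, hm, realRooted l ^ m * r, realRooted l ^ m * Q * u, realRooted l ^ m * Q * v,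
        ?_, ?_, ?_, ?_⟩
      · rw [hfq, mul_pow]
        have h5 : (realRooted l ^ 2) ^ m = (realRooted l ^ m) ^ 2 := by
          rw [← pow_mul, ← pow_mul, mul_comm]
        rw [h5]
        linear_combination ((realRooted l ^ m) ^ 2) * hS + ((realRooted l ^ m) ^ 2 * Q ^ 2) * huv
      · rw [map_mul, map_mul, map_pow, map_pow, sub_eq_zero.mp e1, sub_eq_zero.mp e2, ← mul_pow,
          ← mul_pow, hr0h]
      · rw [map_mul, map_mul, map_mul, map_mul, aeval_Q_z, aeval_Q_w]; ring
      · rw [map_mul, map_mul, map_mul, map_mul, aeval_Q_z, aeval_Q_w]; ring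

end Pool.Agent.Q81.StubFour
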