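import Mathlib.RingTheory.MvPolynomial.Homogeneous
import Mathlib.Algebra.MvPolynomial.Funext
import Mathlib.Data.Real.Basic
import Mathlib.Algebra.Polynomial.Div
import Mathlib.Tactic

set_option autoImplicit false

open MvPolynomial

namespace Pool.Agent.Q81.SumSq

/-- If `X^(2k)` divides a sum of squares of real polynomials, `X^k` divides each of them. -/
lemma X_pow_dvd_of_sum_sq {ι : Type*} (s : Finset ι) (k : ℕ) : ∀ (P : ι → Polynomial ℝ),
    Polynomial.X ^ (2 * k) ∣ ∑ i ∈ s, P i ^ 2 → ∀ i ∈ s, Polynomial.X ^ k ∣ P i := by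
  induction k with
  | zero => intro P _ i _; simp
  | succ k ih =>
    intro P h
    have hsum : ∑ i ∈ s, (P i).coeff 0 ^ 2 = 0 := by
      have h1 : Polynomial.X ∣ ∑ i ∈ s, P i ^ 2 :=
        (dvd_pow_self _ (by omega)).trans h
      rw [Polynomial.X_dvd_iff, Polynomial.finsetSum_coeff] at h1
      rw [← h1]
      refine Finset.sum_congr rfl (fun i _ => ?_)
      rw [sq, sq, Polynomial.mul_coeff_zero]
    have h0 : ∀ i ∈ s, (P i).coeff 0 = 0 := by
      intro i hi
      have := (Finset.sum_eq_zero_iff_of_nonneg (fun i _ => sq_nonneg _)).mp hsum i hi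
      exact pow_eq_zero_iff (by norm_num) |>.mp this
    have h1 : ∀ i ∈ s, P i = Polynomial.X * (P i).divX := by
      intro i hi
      have := Polynomial.divX_mul_X_add (P i)
      rw [h0 i hi, Polynomial.C_0, add_zero, mul_comm] at this
      exact this.symm
    have h2 : ∑ i ∈ s, P i ^ 2 = Polynomial.X ^ 2 * ∑ i ∈ s, (P i).divX ^ 2 := by
      rw [Finset.mul_sum]
      refine Finset.sum_congr rfl (fun i hi => ?_)
      conv_lhs => rw [h1 i hi]
      ring
    rw [h2, show 2 * (k + 1) = 2 + 2 * k by ring, pow_add] at h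
    have h3 := (mul_dvd_mul_iff_left (pow_ne_zero 2 Polynomial.X_ne_zero)).mp h
    intro i hi
    have h4 := ih _ h3 i hi
    rw [h1 i hi, pow_succ, mul_comm]
    exact mul_dvd_mul_left _ h4

/-- The restriction of a form to the line spanned by a point. -/
lemma aeval_line_of_homogeneous {n : ℕ} (f : MvPolynomial (Fin n) ℝ) (j : ℕ)
    (hf : f.IsHomogeneous j) (x : Fin n → ℝ) :
    aeval (fun v => Polynomial.C (x v) * Polynomial.X) f =
      Polynomial.C (eval x f) * (Polynomial.X : Polynomial ℝ) ^ j := by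
  rw [aeval_def, eval₂_eq', eval_eq', map_sum, Finset.sum_mul]
  refine Finset.sum_congr rfl (fun d hd => ?_)
  have hdeg : ∑ i, d i = j := by
    have h := hf (mem_support_iff.mp hd)
    rw [Finsupp.weight_apply, Finsupp.sum_fintype _ _ (by simp)] at h
    simpa using h
  rw [← hdeg, map_mul, map_prod, ← Finset.prod_pow_eq_pow_sum, mul_assoc, ← Finset.prod_mul_distrib]
  simp only [map_pow, mul_pow]
  rfl

lemma aeval_line_coeff {n : ℕ} (h : MvPolynomial (Fin n) ℝ) (k : ℕ) (x : Fin n → ℝ) :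
    (aeval (fun v => Polynomial.C (x v) * (Polynomial.X : Polynomial ℝ)) h).coeff k =
      eval x (homogeneousComponent k h) := by
  conv_lhs => rw [← sum_homogeneousComponent h]
  rw [map_sum, Polynomial.finsetSum_coeff]
  have : ∀ j ∈ Finset.range (h.totalDegree + 1),
      ((aeval (fun v => Polynomial.C (x v) * (Polynomial.X : Polynomial ℝ)))
        (homogeneousComponent j h)).coeff k =
      if j = k then eval x (homogeneousComponent k h) else 0 := by
    intro j _
    rw [aeval_line_of_homogeneous _ j (homogeneousComponent_isHomogeneous j h)]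
    rw [Polynomial.coeff_C_mul, Polynomial.coeff_X_pow]
    split_ifs with h1 h2 h2
    · rw [mul_one, h2]
    · exact absurd h1.symm h2
    · exact absurd h2.symm h1
    · rw [mul_zero]
  rw [Finset.sum_congr rfl this, Finset.sum_ite_eq']
  split_ifs with h1
  · rfl
  · rw [Finset.mem_range, not_lt] at h1
    rw [homogeneousComponent_eq_zero k h (by omega)]
    simp

/-- If a form of degree `2k` is a sum of squares of real polynomials, it is the sum of the squares
of their degree-`k` components. -/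
lemma sum_sq_homogeneousComponent {n : ℕ} {ι : Type*} (s : Finset ι)
    (h : ι → MvPolynomial (Fin n) ℝ) (F : MvPolynomial (Fin n) ℝ) (k : ℕ)
    (hF : F.IsHomogeneous (2 * k)) (hs : F = ∑ i ∈ s, h i ^ 2) :
    F = ∑ i ∈ s, (homogeneousComponent k (h i)) ^ 2 := by
  apply MvPolynomial.funext
  intro x
  have h1 := congrArg (aeval (fun v => Polynomial.C (x v) * (Polynomial.X : Polynomial ℝ))) hs
  rw [aeval_line_of_homogeneous F _ hF, map_sum] at h1
  simp only [map_pow] at h1
  have h2 := X_pow_dvd_of_sum_sq s k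
    (fun i => aeval (fun v => Polynomial.C (x v) * (Polynomial.X : Polynomial ℝ)) (h i))
    (by rw [← h1]; exact Dvd.intro_left _ rfl)
  have h3 : ∀ i : ι, ∃ R : Polynomial ℝ, i ∈ s →
      aeval (fun v => Polynomial.C (x v) * (Polynomial.X : Polynomial ℝ)) (h i) =
        Polynomial.X ^ k * R := by
    intro i
    by_cases hi : i ∈ s
    · obtain ⟨R, hR⟩ := h2 i hi
      exact ⟨R, fun _ => hR⟩
    · exact ⟨0, fun h => absurd h hi⟩
  choose R hR using h3
  have h4 : Polynomial.C (eval x F) * (Polynomial.X : Polynomial ℝ) ^ (2 * k) =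
      (∑ i ∈ s, R i ^ 2) * Polynomial.X ^ (2 * k) := by
    rw [h1, Finset.sum_mul]
    refine Finset.sum_congr rfl (fun i hi => ?_)
    rw [hR i hi]
    ring
  have h5 := mul_right_cancel₀ (pow_ne_zero _ Polynomial.X_ne_zero) h4
  have h6 := congrArg (fun p => Polynomial.coeff p 0) h5
  simp only [Polynomial.coeff_C_zero, Polynomial.finsetSum_coeff] at h6
  rw [h6, map_sum]
  refine Finset.sum_congr rfl (fun i hi => ?_)
  rw [map_pow, ← aeval_line_coeff, hR i hi, sq, sq, Polynomial.mul_coeff_zero]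
  congr 1 <;> simp [Polynomial.coeff_X_pow_mul']

/-- Decomposition of a form of degree `m + 1`. -/
lemma exists_decomp {n : ℕ} (m : ℕ) (p : MvPolynomial (Fin n) ℝ) (hp : p.IsHomogeneous (m + 1)) :
    ∃ q : Fin n → MvPolynomial (Fin n) ℝ, (∀ i, (q i).IsHomogeneous m) ∧ p = ∑ i, X i * q i := by
  classical
  have h : p ∈ homogeneousSubmodule (Fin n) ℝ (m + 1) := hp
  rw [← homogeneousSubmodule_one_pow, pow_succ', homogeneousSubmodule_one_pow] at h
  induction h using Submodule.mul_induction_on' with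
  | mem_mul_mem l hl r hr =>
    rw [homogeneousSubmodule_one_eq_span_X] at hl
    clear hp
    induction hl using Submodule.span_induction with
    | mem x hx =>
      obtain ⟨j, rfl⟩ := hx
      refine ⟨fun i => if i = j then r else 0, ?_, ?_⟩
      · intro i
        dsimp only
        split_ifs
        · exact hr
        · exact isHomogeneous_zero _ _ _
      · simp
    | zero => exact ⟨fun _ => 0, fun _ => isHomogeneous_zero _ _ _, by simp⟩
    | add a b _ _ iha ihb =>
      obtain ⟨q1, h1, e1⟩ := iha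
      obtain ⟨q2, h2, e2⟩ := ihb
      refine ⟨fun i => q1 i + q2 i, fun i => (h1 i).add (h2 i), ?_⟩
      rw [add_mul, e1, e2, ← Finset.sum_add_distrib]
      exact Finset.sum_congr rfl (fun i _ => by ring)
    | smul c a _ ih =>
      obtain ⟨q1, h1, e1⟩ := ih
      refine ⟨fun i => C c * q1 i, fun i => ?_, ?_⟩
      · have := (isHomogeneous_C (Fin n) c).mul (h1 i)
        rwa [zero_add] at this
      · rw [smul_eq_C_mul, mul_assoc, e1, Finset.mul_sum]
        exact Finset.sum_congr rfl (fun i _ => by ring)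
  | add a ha b hb iha ihb =>
    obtain ⟨q1, h1, e1⟩ := iha (by
      rw [← mem_homogeneousSubmodule, ← homogeneousSubmodule_one_pow, pow_succ',
        homogeneousSubmodule_one_pow]; exact ha)
    obtain ⟨q2, h2, e2⟩ := ihb (by
      rw [← mem_homogeneousSubmodule, ← homogeneousSubmodule_one_pow, pow_succ',
        homogeneousSubmodule_one_pow]; exact hb)
    refine ⟨fun i => q1 i + q2 i, fun i => (h1 i).add (h2 i), ?_⟩
    rw [e1, e2, ← Finset.sum_add_distrib]
    exact Finset.sum_congr rfl (fun i _ => by ring)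

/-- A linear form in three variables. -/
lemma eval_form_one (p : MvPolynomial (Fin 3) ℝ) (hp : p.IsHomogeneous 1) :
    ∃ a b c : ℝ, ∀ x y z : ℝ, eval ![x, y, z] p = a * x + b * y + c * z := by
  obtain ⟨q, hq, hpq⟩ := exists_decomp 0 p hp
  have h0 : ∀ i, ∃ r : ℝ, q i = C r := fun i => by
    exact ⟨_, totalDegree_eq_zero_iff_eq_C.mp (Nat.le_zero.mp (hq i).totalDegree_le)⟩
  choose r hr using h0
  refine ⟨r 0, r 1, r 2, fun x y z => ?_⟩
  rw [hpq, map_sum, Fin.sum_univ_three, hr, hr, hr]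
  simp
  ring

lemma eval_form_two (p : MvPolynomial (Fin 3) ℝ) (hp : p.IsHomogeneous 2) :
    ∃ a b c d e f : ℝ, ∀ x y z : ℝ, eval ![x, y, z] p =
      a * x ^ 2 + b * y ^ 2 + c * z ^ 2 + d * (x * y) + e * (x * z) + f * (y * z) := by
  obtain ⟨q, hq, hpq⟩ := exists_decomp 1 p hp
  obtain ⟨a0, b0, c0, h0⟩ := eval_form_one _ (hq 0)
  obtain ⟨a1, b1, c1, h1⟩ := eval_form_one _ (hq 1)
  obtain ⟨a2, b2, c2, h2⟩ := eval_form_one _ (hq 2)
  refine ⟨a0, b1, c2, b0 + a1, c0 + a2, c1 + b2, fun x y z => ?_⟩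
  rw [hpq, map_sum, Fin.sum_univ_three, map_mul, map_mul, map_mul, h0, h1, h2]
  simp
  ring

lemma eval_form_three (p : MvPolynomial (Fin 3) ℝ) (hp : p.IsHomogeneous 3) :
    ∃ a b c d e f g h i j : ℝ, ∀ x y z : ℝ, eval ![x, y, z] p =
      a * x ^ 3 + b * (x ^ 2 * y) + c * (x * y ^ 2) + d * y ^ 3 + e * (x ^ 2 * z) +
      f * (x * y * z) + g * (y ^ 2 * z) + h * (x * z ^ 2) + i * (y * z ^ 2) + j * z ^ 3 := by
  obtain ⟨q, hq, hpq⟩ := exists_decomp 2 p hp
  obtain ⟨a0, b0, c0, d0, e0, f0, h0⟩ := eval_form_two _ (hq 0)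
  obtain ⟨a1, b1, c1, d1, e1, f1, h1⟩ := eval_form_two _ (hq 1)
  obtain ⟨a2, b2, c2, d2, e2, f2, h2⟩ := eval_form_two _ (hq 2)
  refine ⟨a0, d0 + a1, b0 + d1, b1, e0 + a2, f0 + e1 + d2, f1 + b2, c0 + e2, c1 + f2, c2,
    fun x y z => ?_⟩
  rw [hpq, map_sum, Fin.sum_univ_three, map_mul, map_mul, map_mul, h0, h1, h2]
  simp
  ring

end Pool.Agent.Q81.SumSq
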